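import Pool.Agent.Y537.PM.US

set_option autoImplicit false

/-!
# Uniformly smooth renormable spaces contain no copy of `c_0`
-/

open Filter Topology Metric

namespace Pool.Agent.Y537.PM

open Pool.Agent.Results.MP_b4da01_an.SuperreflexiveYes

universe u v

theorem us_of_embedding {X : Type u} [NormedAddCommGroup X] [NormedSpace ℝ X] (hX : USRenormable X)
    {Z : Type v} [NormedAddCommGroup Z] [NormedSpace ℝ Z] (T : Z →ₗ[ℝ] X) (a b : ℝ) (ha : 0 < a)
    (hb : 0 < b) (hT : ∀ z, a * ‖z‖ ≤ ‖T z‖ ∧ ‖T z‖ ≤ b * ‖z‖) : USRenormable Z := by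
  obtain ⟨p, ⟨a', b', ha', hb', hab⟩, hus⟩ := hX
  refine ⟨p.comp T, ⟨a' * a, b' * b, by positivity, by positivity, fun z => ⟨?_, ?_⟩⟩, ?_⟩
  · rw [Seminorm.comp_apply]
    have h1 := mul_le_mul_of_nonneg_left (hT z).1 ha'.le
    have h2 := (hab (T z)).1
    linarith
  · rw [Seminorm.comp_apply]
    have h1 := mul_le_mul_of_nonneg_left (hT z).2 hb'.le
    have h2 := (hab (T z)).2
    linarith
  · intro ε hε
    obtain ⟨δ, hδ, h⟩ := hus ε hε
    refine ⟨δ, hδ, fun x k hx hk => ?_⟩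
    rw [Seminorm.comp_apply] at hx hk
    rw [Seminorm.comp_apply, Seminorm.comp_apply, Seminorm.comp_apply, map_add, map_sub]
    exact h _ _ hx hk

/-- Bounded sequences in reflexive spaces have weak cluster points. -/
theorem weak_cluster {Z : Type v} [NormedAddCommGroup Z] [NormedSpace ℝ Z]
    (hR : Pool.Agent.Results.MP_b4da01_an.SuperreflexiveYes.Reflexive Z) (s : ℕ → Z)
    (hs : ∀ n, ‖s n‖ ≤ 1) :
    ∃ z : Z, ∀ (f : StrongDual ℝ Z) (c : ℝ), (∀ᶠ n in atTop, f (s n) = c) → f z = c := by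
  let J := NormedSpace.inclusionInDoubleDual ℝ Z
  have hJa : ∀ z (f : StrongDual ℝ Z), J z f = f z := fun z f => NormedSpace.dual_def ℝ _ z f
  let G : ℕ → WeakDual ℝ (StrongDual ℝ Z) := fun n => StrongDual.toWeakDual (J (s n))
  have hGv : ∀ n f, G n f = f (s n) := fun n f => hJa _ f
  have hball : ∀ n, G n ∈ WeakDual.polar ℝ (closedBall (0 : StrongDual ℝ Z) 1) := by
    intro n
    rw [WeakDual.polar_def]
    intro f hf
    have h1 : ‖f‖ ≤ 1 := by simpa using hf
    rw [hGv]
    calc ‖f (s n)‖ ≤ ‖f‖ * ‖s n‖ := f.le_opNorm _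
      _ ≤ 1 * 1 := mul_le_mul h1 (hs n) (norm_nonneg _) zero_le_one
      _ = 1 := one_mul 1
  obtain ⟨Ψ, _, hΨ⟩ := (WeakDual.isCompact_polar (𝕜 := ℝ)
    (closedBall_mem_nhds (0 : StrongDual ℝ Z) one_pos)).ultrafilter_le_nhds
    ((hyperfilter ℕ).map G) (by
      rw [le_principal_iff]
      show G ⁻¹' _ ∈ (hyperfilter ℕ : Filter ℕ)
      exact Filter.univ_mem' hball)
  obtain ⟨z, hz⟩ := hR (WeakDual.toStrongDual Ψ)
  refine ⟨z, fun f c hf => ?_⟩
  have h1 : Tendsto (fun n => G n f) (hyperfilter ℕ : Filter ℕ) (𝓝 (Ψ f)) :=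
    ((WeakDual.eval_continuous f).tendsto Ψ).comp hΨ
  have h2 : Ψ f = f z := by
    have h3 : (WeakDual.toStrongDual Ψ) f = J z f := by rw [← hz]
    rw [hJa] at h3
    exact h3
  rw [h2] at h1
  have h4 : Tendsto (fun n => G n f) (hyperfilter ℕ : Filter ℕ) (𝓝 c) := by
    refine tendsto_const_nhds.congr' ?_
    have h5 : (hyperfilter ℕ : Filter ℕ) ≤ atTop := by
      rw [← Nat.cofinite_eq_atTop]; exact hyperfilter_le_cofinite
    filter_upwards [h5 hf] with n hn
    rw [hGv]
    exact hn.symm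
  exact tendsto_nhds_unique h1 h4

theorem c0_not_reflexive :
    ¬ Pool.Agent.Results.MP_b4da01_an.SuperreflexiveYes.Reflexive
      (ZeroAtInftyContinuousMap ℕ ℝ) := by
  intro hR
  have hle : ∀ (a : ZeroAtInftyContinuousMap ℕ ℝ) (k : ℕ), |a k| ≤ ‖a‖ := by
    intro a k
    rw [← ZeroAtInftyContinuousMap.norm_toBCF_eq_norm]
    exact BoundedContinuousFunction.norm_coe_le_norm a.toBCF k
  let s : ℕ → ZeroAtInftyContinuousMap ℕ ℝ := fun n =>
    { toFun := fun i => if i < n then 1 else 0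
      continuous_toFun := continuous_of_discreteTopology
      zero_at_infty' := by
        rw [cocompact_eq_cofinite]
        refine tendsto_const_nhds.congr' ?_
        have h1 : {i : ℕ | ¬ n ≤ i}.Finite := by
          have : {i : ℕ | ¬ n ≤ i} = Set.Iio n := by ext i; simp
          rw [this]; exact Set.finite_Iio n
        have h2 : ∀ᶠ i in (cofinite : Filter ℕ), n ≤ i := by
          rw [eventually_cofinite]; exact h1
        filter_upwards [h2] with i hi
        rw [if_neg (by omega)] }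
  have hsv : ∀ n i, s n i = if i < n then 1 else 0 := fun n i => rfl
  have hs : ∀ n, ‖s n‖ ≤ 1 := by
    intro n
    rw [← ZeroAtInftyContinuousMap.norm_toBCF_eq_norm,
      BoundedContinuousFunction.norm_le zero_le_one]
    intro i
    show ‖s n i‖ ≤ 1
    rw [hsv]
    split_ifs <;> simp
  let D : ℕ → StrongDual ℝ (ZeroAtInftyContinuousMap ℕ ℝ) := fun i =>
    LinearMap.mkContinuous
      { toFun := fun z => z i
        map_add' := fun a b => by rw [ZeroAtInftyContinuousMap.add_apply]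
        map_smul' := fun c a => by rw [ZeroAtInftyContinuousMap.smul_apply, RingHom.id_apply] } 1
      (fun z => by rw [one_mul]; exact hle z i)
  have hD : ∀ i z, D i z = z i := fun i z => rfl
  obtain ⟨z, hz⟩ := weak_cluster hR s hs
  have hone : ∀ i, z i = 1 := by
    intro i
    rw [← hD]
    apply hz
    filter_upwards [eventually_gt_atTop i] with n hn
    rw [hD, hsv, if_pos hn]
  have hz0 := z.zero_at_infty'
  have h1 : Tendsto (fun _ : ℕ => (1 : ℝ)) (cocompact ℕ) (𝓝 0) := by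
    refine hz0.congr fun i => ?_
    exact hone i
  rw [cocompact_eq_cofinite] at h1
  exact one_ne_zero (tendsto_nhds_unique tendsto_const_nhds h1)

theorem no_c0_of_us {X : Type u} [NormedAddCommGroup X] [NormedSpace ℝ X]
    (hX : USRenormable X) : ¬ ContainsC0 X := by
  rintro ⟨V, _, ⟨e⟩⟩
  have hZ : USRenormable (ZeroAtInftyContinuousMap ℕ ℝ) := by
    obtain ⟨K1, hK1, h1⟩ := (e : V →L[ℝ] ZeroAtInftyContinuousMap ℕ ℝ).bound
    obtain ⟨K2, hK2, h2⟩ := (e.symm : ZeroAtInftyContinuousMap ℕ ℝ →L[ℝ] V).bound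
    refine us_of_embedding hX (V.subtype.comp (e.symm : ZeroAtInftyContinuousMap ℕ ℝ ≃L[ℝ] V).toLinearEquiv.toLinearMap)
      K1⁻¹ K2 (by positivity) hK2 (fun z => ⟨?_, ?_⟩)
    · rw [inv_mul_le_iff₀ hK1]
      have := h1 (e.symm z)
      simp only [ContinuousLinearEquiv.coe_coe, ContinuousLinearEquiv.apply_symm_apply] at this
      exact this
    · exact h2 z
  exact c0_not_reflexive (reflexive_of_us hZ)

end Pool.Agent.Y537.PM
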