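import Pool.Agent.Y537.PM.Main

set_option autoImplicit false

/-!
# Pointwise moduli of smoothness: convex functions instead of norms
-/

open Filter Topology

namespace Pool.Agent.Y537.PM

open Pool.Agent.Results.MP_b4da01_an.SuperreflexiveYes

universe u v

variable {X : Type u} [NormedAddCommGroup X] [NormedSpace ℝ X]

/-- The cumulative family. -/
noncomputable def cum (e : ℕ → ℝ → ℝ) (N : ℕ) (t : ℝ) : ℝ :=
  N * ∑ n ∈ Finset.range N, e n (N * t)

theorem cum_nice {e : ℕ → ℝ → ℝ} (he : Nice e) : Nice (cum e) := by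
  constructor
  · intro N t ht
    unfold cum
    have := sum_nonneg' he N (t := N * t) (by positivity)
    positivity
  · intro N s t hs hst
    unfold cum
    exact mul_le_mul_of_nonneg_left (sum_le' he le_rfl (by positivity) (by gcongr))
      (Nat.cast_nonneg N)

theorem cum_mono_left {e : ℕ → ℝ → ℝ} (he : Nice e) {N N' : ℕ} (h : N ≤ N') {t : ℝ}
    (ht : 0 ≤ t) : cum e N t ≤ cum e N' t := by
  unfold cum
  have h0 : (N : ℝ) ≤ N' := by exact_mod_cast h
  exact mul_le_mul h0 (sum_le' he h (by positivity) (by gcongr))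
    (sum_nonneg' he N (by positivity)) (Nat.cast_nonneg _)

theorem cum_absorb {e : ℕ → ℝ → ℝ} (he : Nice e) (n : ℕ) (a b : ℝ) (ha : 0 ≤ a) :
    ∃ N : ℕ, ∀ t : ℝ, 0 ≤ t → b * e n (a * t) ≤ cum e N t := by
  obtain ⟨N, hN⟩ := exists_nat_ge (a + |b| + (n + 1))
  have hb := abs_nonneg b
  have hn : (0 : ℝ) ≤ n := Nat.cast_nonneg n
  refine ⟨N, fun t ht => ?_⟩
  have hnN : n < N := by
    have : (n : ℝ) < N := by linarith
    exact_mod_cast this
  have h1 : e n (a * t) ≤ e n (N * t) :=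
    he.mono _ _ _ (by positivity) (mul_le_mul_of_nonneg_right (by linarith) ht)
  have h2 : e n (N * t) ≤ ∑ n ∈ Finset.range N, e n (N * t) :=
    Finset.single_le_sum (f := fun n => e n (N * t)) (fun i _ => he.nonneg i _ (by positivity))
      (Finset.mem_range.2 hnN)
  have h3 : 0 ≤ e n (a * t) := he.nonneg _ _ (by positivity)
  unfold cum
  calc b * e n (a * t) ≤ |b| * e n (a * t) := mul_le_mul_of_nonneg_right (le_abs_self b) h3
    _ ≤ N * e n (a * t) := mul_le_mul_of_nonneg_right (by linarith) h3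
    _ ≤ _ := mul_le_mul_of_nonneg_left (h1.trans h2) (Nat.cast_nonneg N)

theorem tendsto_mul_right (a : ℝ) (ha : 0 < a) :
    Tendsto (fun t : ℝ => a * t) (𝓝[>] 0) (𝓝[>] 0) := by
  rw [tendsto_nhdsWithin_iff]
  constructor
  · have : Tendsto (fun t : ℝ => a * t) (𝓝 0) (𝓝 (a * 0)) :=
      (continuous_const.mul continuous_id).tendsto 0
    rw [mul_zero] at this
    exact this.mono_left nhdsWithin_le_nhds
  · filter_upwards [self_mem_nhdsWithin] with t ht
    exact mul_pos ha ht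

theorem cum_tendsto {e : ℕ → ℝ → ℝ} (he0 : ∀ n, Tendsto (e n) (𝓝[>] 0) (𝓝 0)) (N : ℕ) :
    Tendsto (cum e N) (𝓝[>] 0) (𝓝 0) := by
  unfold cum
  rcases Nat.eq_zero_or_pos N with h | h
  · subst h; simp
  · have hN : (0 : ℝ) < N := by exact_mod_cast h
    have h2 : Tendsto (fun t : ℝ => (N : ℝ) * ∑ n ∈ Finset.range N, e n (N * t)) (𝓝[>] 0)
        (𝓝 (N * ∑ n ∈ Finset.range N, 0)) :=
      Tendsto.const_mul _ (tendsto_finsetSum _ fun n _ => (he0 n).comp (tendsto_mul_right _ hN))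
    simpa using h2

/-- The gauge of a sublevel set of an even convex function. -/
theorem exists_gauge (F : X → ℝ) (c : ℝ) (hconv : ConvexOn ℝ Set.univ F) (hcont : Continuous F)
    (h0 : F 0 < c) (heven : ∀ x, F (-x) = F x) (R : ℝ) (hbdd : ∀ x, F x ≤ c → ‖x‖ ≤ R) :
    ∃ p : Seminorm ℝ X, EquivNorm p ∧ ∀ x, p x = 1 → F x = c := by
  set B : Set X := {x | F x ≤ c} with hB
  set Q : ℝ := max R 1 with hQ
  have hQ1 : 1 ≤ Q := le_max_right _ _
  have hQpos : 0 < Q := by linarith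
  have hBclosed : IsClosed B := isClosed_le hcont continuous_const
  have hBconv : Convex ℝ B := by
    have := hconv.convex_le c
    simpa [hB] using this
  have hBopen : IsOpen {x | F x < c} := isOpen_lt hcont continuous_const
  have hB0 : B ∈ 𝓝 (0 : X) := by
    apply Filter.mem_of_superset (hBopen.mem_nhds (show F 0 < c from h0))
    intro x hx
    have hx' : F x < c := hx
    exact hx'.le
  have hBabs : Absorbent ℝ B := absorbent_nhds_zero hB0
  have hBbal : Balanced ℝ B := by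
    rw [balanced_iff_smul_mem]
    intro a ha x hx
    have ha' : |a| ≤ 1 := ha
    have h1 : F (a • x) = F (|a| • x) := by
      rcases abs_choice a with h | h
      · rw [h]
      · rw [h, neg_smul, heven]
    have hx' : F x ≤ c := hx
    show F (a • x) ≤ c
    rw [h1]
    have hc := hconv.2 (Set.mem_univ x) (Set.mem_univ (0 : X)) (abs_nonneg a)
      (show 0 ≤ 1 - |a| by linarith) (by ring)
    simp only [smul_zero, add_zero, smul_eq_mul] at hc
    have h3 : |a| * F x ≤ |a| * c := mul_le_mul_of_nonneg_left hx' (abs_nonneg a)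
    have h4 : (1 - |a|) * F 0 ≤ (1 - |a|) * c := mul_le_mul_of_nonneg_left h0.le (by linarith)
    linarith
  set p : Seminorm ℝ X := gaugeSeminorm hBbal hBconv hBabs with hp
  have hpdef : ∀ x, p x = gauge B x := fun x => rfl
  obtain ⟨r, hr, hrB⟩ := Metric.mem_nhds_iff.1 hB0
  have hub : ∀ x, p x ≤ r⁻¹ * ‖x‖ := by
    intro x
    have := mul_gauge_le_norm (x := x) hrB
    rw [hpdef, inv_mul_eq_div, le_div_iff₀ hr, mul_comm]
    exact this
  have hlb : ∀ x, ‖x‖ ≤ Q * p x := by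
    intro x
    have hsub : B ⊆ Metric.closedBall 0 Q := by
      intro y hy
      rw [mem_closedBall_zero_iff]
      exact (hbdd y hy).trans (le_max_left _ _)
    have := le_gauge_of_subset_closedBall (x := x) hBabs hQpos.le hsub
    rw [hpdef]
    rw [div_le_iff₀ hQpos] at this
    linarith
  refine ⟨p, ⟨Q⁻¹, r⁻¹, by positivity, by positivity, fun x => ⟨?_, hub x⟩⟩, ?_⟩
  · rw [inv_mul_le_iff₀ hQpos]; exact hlb x
  intro x hx
  apply le_antisymm
  · have h1 : gauge B x ≤ 1 := hx.le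
    rw [gauge_le_one_iff_mem_closure hBconv hB0, hBclosed.closure_eq] at h1
    exact h1
  · by_contra hcon
    push Not at hcon
    have h1 : x ∈ interior B := by
      rw [mem_interior]
      exact ⟨{x | F x < c}, fun y hy => (show F y < c from hy).le, hBopen, hcon⟩
    rw [← gauge_lt_one_iff_mem_interior hBconv hB0] at h1
    rw [hpdef] at hx
    linarith

/-- A supporting functional. -/
theorem exists_support (p : Seminorm ℝ X) (x : X) (hx : p x = 1) :
    ∃ f : X →ₗ[ℝ] ℝ, f x = 1 ∧ ∀ y, f y ≤ p y := by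
  have hx0 : x ≠ 0 := by
    rintro rfl
    rw [map_zero] at hx
    exact zero_ne_one hx
  obtain ⟨g, hg1, hg2⟩ := exists_extension_of_le_sublinear
    (LinearPMap.mkSpanSingleton x (1 : ℝ) hx0) (fun y => p y)
    (fun c hc y => by rw [map_smul_eq_mul, Real.norm_of_nonneg hc.le])
    (fun y z => map_add_le_add p y z) (by
      rintro ⟨y, hy⟩
      obtain ⟨c, rfl⟩ := Submodule.mem_span_singleton.1 hy
      have h3 : (LinearPMap.mkSpanSingleton x (1 : ℝ) hx0 : X →ₗ.[ℝ] ℝ) ⟨c • x, hy⟩ = c • (1 : ℝ) :=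
        LinearPMap.mkSpanSingleton'_apply x (1 : ℝ) _ c hy
      rw [h3]
      show c • (1 : ℝ) ≤ p (c • x)
      rw [map_smul_eq_mul, hx, smul_eq_mul, mul_one, mul_one]
      exact le_abs_self c)
  refine ⟨g, ?_, hg2⟩
  have h1 := hg1 ⟨x, Submodule.mem_span_singleton_self x⟩
  have h2 : (LinearPMap.mkSpanSingleton x (1 : ℝ) hx0 : X →ₗ.[ℝ] ℝ)
      ⟨x, Submodule.mem_span_singleton_self x⟩ = (1 : ℝ) :=
    LinearPMap.mkSpanSingleton'_apply_self x (1 : ℝ) _ _
  exact h1.trans h2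

/-- The second differences of the gauge. -/
theorem gauge_lines (F : X → ℝ) (c : ℝ) (hconv : ConvexOn ℝ Set.univ F) (h0 : F 0 < c)
    (p : Seminorm ℝ X) (hone : ∀ x, p x = 1 → F x = c) (x : X) (hx : p x = 1) (h : X) :
    ∃ (h' : X) (τ : ℝ), 0 < τ ∧ ∀ t : ℝ, 0 < t → t < τ →
      om (fun y => p y) x (t • h) ≤ om F x ((2 * t) • h') / (2 * (c - F 0)) := by
  obtain ⟨f, hf1, hf2⟩ := exists_support p x hx
  have hd : 0 < c - F 0 := by linarith
  set l : ℝ := f h with hl
  set h' : X := h - l • x with hh'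
  have hfh' : f h' = 0 := by
    rw [hh', map_sub, map_smul, hf1, smul_eq_mul, mul_one, ← hl, sub_self]
  have hge : ∀ s : ℝ, 1 ≤ p (x + s • h') := by
    intro s
    have := hf2 (x + s • h')
    rw [map_add, map_smul, hfh', hf1, smul_zero, add_zero] at this
    exact this
  have hkey : ∀ s : ℝ, (p (x + s • h') - 1) * (c - F 0) ≤ F (x + s • h') - c := by
    intro s
    have hA := hge s
    set A := p (x + s • h') with hAdef
    have hApos : 0 < A := by linarith
    have hpu : p (A⁻¹ • (x + s • h')) = 1 := by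
      rw [map_smul_eq_mul, Real.norm_of_nonneg (by positivity), ← hAdef]
      exact inv_mul_cancel₀ hApos.ne'
    have hFu := hone _ hpu
    have hc := hconv.2 (Set.mem_univ (x + s • h')) (Set.mem_univ (0 : X))
      (show 0 ≤ A⁻¹ by positivity) (show 0 ≤ 1 - A⁻¹ by
        rw [sub_nonneg]; exact inv_le_one_of_one_le₀ hA) (by ring)
    simp only [smul_zero, add_zero, smul_eq_mul] at hc
    rw [hFu] at hc
    have h2 := mul_le_mul_of_nonneg_left hc hApos.le
    have e1 : A * (A⁻¹ * F (x + s • h') + (1 - A⁻¹) * F 0) =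
        F (x + s • h') + (A - 1) * F 0 := by
      field_simp
    rw [e1] at h2
    linarith
  refine ⟨h', 1 / (2 * (|l| + 1)), by positivity, ?_⟩
  intro t ht htl
  have habs := abs_nonneg l
  have htl' : t * |l| ≤ 1 / 2 := by
    rw [lt_div_iff₀ (by positivity)] at htl
    nlinarith
  have hlt : |t * l| ≤ 1 / 2 := by rw [abs_mul, abs_of_pos ht]; exact htl'
  obtain ⟨hlt1, hlt2⟩ := abs_le.1 hlt
  have hFx := hone x hx
  have k1 := hkey (2 * t)
  have k2 := hkey (-(2 * t))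
  have e1 : x + t • h = (1 / 2 : ℝ) • (x + (2 * t) • h') + (1 / 2 + t * l) • x := by
    rw [hh']; module
  have e2 : x - t • h = (1 / 2 : ℝ) • (x + (-(2 * t)) • h') + (1 / 2 - t * l) • x := by
    rw [hh']; module
  have p1 : p (x + t • h) ≤ 1 / 2 * p (x + (2 * t) • h') + (1 / 2 + t * l) := by
    rw [e1]
    refine (map_add_le_add p _ _).trans ?_
    rw [map_smul_eq_mul, map_smul_eq_mul, hx, Real.norm_of_nonneg (by norm_num : (0 : ℝ) ≤ 1 / 2),
      Real.norm_of_nonneg (by linarith : (0 : ℝ) ≤ 1 / 2 + t * l), mul_one]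
  have p2 : p (x - t • h) ≤ 1 / 2 * p (x + (-(2 * t)) • h') + (1 / 2 - t * l) := by
    rw [e2]
    refine (map_add_le_add p _ _).trans ?_
    rw [map_smul_eq_mul, map_smul_eq_mul, hx, Real.norm_of_nonneg (by norm_num : (0 : ℝ) ≤ 1 / 2),
      Real.norm_of_nonneg (by linarith : (0 : ℝ) ≤ 1 / 2 - t * l), mul_one]
  rw [le_div_iff₀ (by positivity)]
  have e3 : x + (-(2 * t)) • h' = x - (2 * t) • h' := by rw [neg_smul, sub_eq_add_neg]
  rw [e3] at k2 p2
  unfold om
  have q1 : p (x + t • h) + p (x - t • h) - 2 * p x ≤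
      1 / 2 * ((p (x + (2 * t) • h') - 1) + (p (x - (2 * t) • h') - 1)) := by
    rw [hx]; linarith
  calc (p (x + t • h) + p (x - t • h) - 2 * p x) * (2 * (c - F 0))
      ≤ 1 / 2 * ((p (x + (2 * t) • h') - 1) + (p (x - (2 * t) • h') - 1)) * (2 * (c - F 0)) :=
        mul_le_mul_of_nonneg_right q1 (by positivity)
    _ = (p (x + (2 * t) • h') - 1) * (c - F 0) + (p (x - (2 * t) • h') - 1) * (c - F 0) := by ring
    _ ≤ F (x + (2 * t) • h') + F (x - (2 * t) • h') - 2 * F x := by rw [hFx]; linarith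

theorem om_scale (p : Seminorm ℝ X) (x k : X) (ρ : ℝ) (hρ : 0 < ρ) :
    om (fun y => p y) x k = ρ * om (fun y => p y) (ρ⁻¹ • x) (ρ⁻¹ • k) := by
  unfold om
  simp only
  rw [← smul_add, ← smul_sub, map_smul_eq_mul, map_smul_eq_mul, map_smul_eq_mul,
    Real.norm_of_nonneg (by positivity)]
  field_simp

/-- Pointwise smooth convex functions with a bounded sublevel set give pointwise smooth norms. -/
theorem norm_of_convex {e : ℕ → ℝ → ℝ} (he : Nice e) (f : X → ℝ)
    (hconv : ConvexOn ℝ Set.univ f) (hcont : Continuous f) (x0 : X) (c R : ℝ) (h0 : f x0 < c)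
    (hbdd : ∀ x, f x ≤ c → ‖x‖ ≤ R)
    (hx : ∀ x h : X, ∃ n : ℕ, ∀ᶠ t in 𝓝[>] (0 : ℝ), om f x (t • h) ≤ t * e n t) :
    ∃ p : Seminorm ℝ X, EquivNorm p ∧ ∀ x : X, x ≠ 0 → ∀ h : X, ∃ N : ℕ,
      ∀ᶠ t in 𝓝[>] (0 : ℝ), om (fun y => p y) x (t • h) ≤ t * cum e N t := by
  set F : X → ℝ := fun y => f (x0 + y) + f (x0 - y) with hF
  have hFconv : ConvexOn ℝ Set.univ F := by
    refine ⟨convex_univ, fun x _ y _ α β hα hβ hαβ => ?_⟩
    have e1 : x0 + (α • x + β • y) = α • (x0 + x) + β • (x0 + y) := by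
      rw [smul_add, smul_add]
      have : x0 = α • x0 + β • x0 := by rw [← add_smul, hαβ, one_smul]
      nth_rewrite 1 [this]
      abel
    have e2 : x0 - (α • x + β • y) = α • (x0 - x) + β • (x0 - y) := by
      rw [smul_sub, smul_sub]
      have : x0 = α • x0 + β • x0 := by rw [← add_smul, hαβ, one_smul]
      nth_rewrite 1 [this]
      abel
    have h1 := hconv.2 (Set.mem_univ (x0 + x)) (Set.mem_univ (x0 + y)) hα hβ hαβ
    have h2 := hconv.2 (Set.mem_univ (x0 - x)) (Set.mem_univ (x0 - y)) hα hβ hαβ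
    show f (x0 + (α • x + β • y)) + f (x0 - (α • x + β • y)) ≤
      α • (f (x0 + x) + f (x0 - x)) + β • (f (x0 + y) + f (x0 - y))
    rw [e1, e2]
    simp only [smul_eq_mul] at h1 h2 ⊢
    linarith
  have hFcont : Continuous F :=
    (hcont.comp (by fun_prop)).add (hcont.comp (by fun_prop))
  have hF0 : F 0 < 2 * c := by
    show f (x0 + 0) + f (x0 - 0) < 2 * c
    rw [add_zero, sub_zero]; linarith
  have hFeven : ∀ x, F (-x) = F x := by
    intro x
    show f (x0 + -x) + f (x0 - -x) = f (x0 + x) + f (x0 - x)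
    rw [sub_neg_eq_add, ← sub_eq_add_neg, add_comm]
  have hFbdd : ∀ x, F x ≤ 2 * c → ‖x‖ ≤ R + ‖x0‖ := by
    intro x hx
    have hx' : f (x0 + x) + f (x0 - x) ≤ 2 * c := hx
    rcases le_total (f (x0 + x)) (f (x0 - x)) with h | h
    · have h1 := hbdd (x0 + x) (by linarith)
      have h2 := norm_sub_le (x0 + x) x0
      rw [add_sub_cancel_left] at h2
      linarith
    · have h1 := hbdd (x0 - x) (by linarith)
      have h2 := norm_sub_le x0 (x0 - x)
      rw [sub_sub_cancel] at h2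
      linarith
  obtain ⟨p, hpe, hone⟩ := exists_gauge F (2 * c) hFconv hFcont hF0 hFeven (R + ‖x0‖) hFbdd
  refine ⟨p, hpe, ?_⟩
  intro x hx0 h
  have hρ : 0 < p x := by
    obtain ⟨a, b, ha, hb, hab⟩ := hpe
    have h1 := (hab x).1
    have h2 : 0 < ‖x‖ := norm_pos_iff.2 hx0
    have h3 : 0 < a * ‖x‖ := by positivity
    linarith
  set ρ := p x with hρdef
  set x1 : X := ρ⁻¹ • x with hx1
  have hpx1 : p x1 = 1 := by
    rw [hx1, map_smul_eq_mul, Real.norm_of_nonneg (by positivity), ← hρdef]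
    exact inv_mul_cancel₀ hρ.ne'
  obtain ⟨h', τ, hτ, hl⟩ := gauge_lines F (2 * c) hFconv hF0 p hone x1 hpx1 h
  obtain ⟨n1, hn1⟩ := hx (x0 + x1) h'
  obtain ⟨n2, hn2⟩ := hx (x0 - x1) h'
  have hd : 0 < 2 * c - F 0 := by linarith
  obtain ⟨N1, hN1⟩ := cum_absorb he n1 (2 / ρ) (1 / (2 * c - F 0)) (by positivity)
  obtain ⟨N2, hN2⟩ := cum_absorb he n2 (2 / ρ) (1 / (2 * c - F 0)) (by positivity)
  obtain ⟨N, hN⟩ := exists_nat_ge (2 * ((N1 : ℝ) + N2 + 1))
  refine ⟨N, ?_⟩
  have hev1 := (tendsto_mul_right (2 / ρ) (by positivity)).eventually hn1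
  have hev2 := (tendsto_mul_right (2 / ρ) (by positivity)).eventually hn2
  filter_upwards [hev1, hev2, Ioo_mem_nhdsGT (show 0 < ρ * τ by positivity)] with t h1 h2 ht
  have htpos : 0 < t := ht.1
  have h3 := hl (ρ⁻¹ * t) (by have := ht.1; positivity) (by
    rw [inv_mul_lt_iff₀ hρ]; exact ht.2)
  have e2t : 2 * (ρ⁻¹ * t) = 2 / ρ * t := by field_simp
  rw [e2t] at h3
  have hFo : om F x1 ((2 / ρ * t) • h') =
      om f (x0 + x1) ((2 / ρ * t) • h') + om f (x0 - x1) ((2 / ρ * t) • h') := by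
    unfold om
    show (f (x0 + (x1 + (2 / ρ * t) • h')) + f (x0 - (x1 + (2 / ρ * t) • h'))) +
      (f (x0 + (x1 - (2 / ρ * t) • h')) + f (x0 - (x1 - (2 / ρ * t) • h'))) -
      2 * (f (x0 + x1) + f (x0 - x1)) = _
    have a1 : x0 + (x1 + (2 / ρ * t) • h') = x0 + x1 + (2 / ρ * t) • h' := by abel
    have a2 : x0 - (x1 + (2 / ρ * t) • h') = x0 - x1 - (2 / ρ * t) • h' := by abel
    have a3 : x0 + (x1 - (2 / ρ * t) • h') = x0 + x1 - (2 / ρ * t) • h' := by abel
    have a4 : x0 - (x1 - (2 / ρ * t) • h') = x0 - x1 + (2 / ρ * t) • h' := by abel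
    rw [a1, a2, a3, a4]
    ring
  rw [om_scale p x (t • h) ρ hρ, smul_smul]
  have h4 : om F x1 ((2 / ρ * t) • h') ≤
      2 / ρ * t * e n1 (2 / ρ * t) + 2 / ρ * t * e n2 (2 / ρ * t) := by
    rw [hFo]; linarith
  have h5 := hN1 t htpos.le
  have h6 := hN2 t htpos.le
  have hle1 : cum e N1 t ≤ cum e (N1 + N2 + 1) t := cum_mono_left he (by omega) htpos.le
  have hle2 : cum e N2 t ≤ cum e (N1 + N2 + 1) t := cum_mono_left he (by omega) htpos.le
  have h7 : 2 * cum e (N1 + N2 + 1) t ≤ cum e N t := by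
    have hNN : 2 * (N1 + N2 + 1) ≤ N := by exact_mod_cast hN
    refine le_trans ?_ (cum_mono_left he hNN htpos.le)
    unfold cum
    have q1 : (∑ n ∈ Finset.range (N1 + N2 + 1), e n (((N1 + N2 + 1 : ℕ) : ℝ) * t)) ≤
        ∑ n ∈ Finset.range (2 * (N1 + N2 + 1)), e n (((2 * (N1 + N2 + 1) : ℕ) : ℝ) * t) := by
      refine sum_le' he (by omega) (by positivity) ?_
      apply mul_le_mul_of_nonneg_right _ htpos.le
      exact_mod_cast (by omega : N1 + N2 + 1 ≤ 2 * (N1 + N2 + 1))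
    calc 2 * (((N1 + N2 + 1 : ℕ) : ℝ) * ∑ n ∈ Finset.range (N1 + N2 + 1),
          e n (((N1 + N2 + 1 : ℕ) : ℝ) * t))
        = ((2 * (N1 + N2 + 1) : ℕ) : ℝ) * ∑ n ∈ Finset.range (N1 + N2 + 1),
          e n (((N1 + N2 + 1 : ℕ) : ℝ) * t) := by push_cast; ring
      _ ≤ _ := mul_le_mul_of_nonneg_left q1 (Nat.cast_nonneg _)
  calc ρ * om (fun y => p y) x1 ((ρ⁻¹ * t) • h)
      ≤ ρ * (om F x1 ((2 / ρ * t) • h') / (2 * (2 * c - F 0))) :=
        mul_le_mul_of_nonneg_left h3 hρ.le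
    _ ≤ ρ * ((2 / ρ * t * e n1 (2 / ρ * t) + 2 / ρ * t * e n2 (2 / ρ * t)) /
          (2 * (2 * c - F 0))) := by
        apply mul_le_mul_of_nonneg_left _ hρ.le
        exact div_le_div_of_nonneg_right h4 (by positivity)
    _ = t * (1 / (2 * c - F 0) * e n1 (2 / ρ * t) + 1 / (2 * c - F 0) * e n2 (2 / ρ * t)) := by
        field_simp
    _ ≤ t * (2 * cum e (N1 + N2 + 1) t) := by
        apply mul_le_mul_of_nonneg_left _ htpos.le
        linarith
    _ ≤ t * cum e N t := mul_le_mul_of_nonneg_left h7 htpos.le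

end Pool.Agent.Y537.PM
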