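import Pool.Agent.Results.MP_b4da01_an.SuperreflexiveYes

set_option autoImplicit false

/-!
# Pointwise moduli of smoothness: the construction

The tree construction of the starting file of the problem, for arbitrary moduli instead of
constants times the square.
-/

open Filter Topology

namespace Pool.Agent.Y537.PM

open Pool.Agent.Results.MP_b4da01_an.SuperreflexiveYes

universe u v

/-- The moduli made of the functions `e n`. -/
noncomputable def Om (e : ℕ → ℝ → ℝ) (M : ℕ) (t : ℝ) : ℝ :=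
  M * (t ^ 2 + t * ∑ n ∈ Finset.range M, e n (M * t))

/-- The functions `e n` are nonnegative and nondecreasing on `[0, ∞)`. -/
structure Nice (e : ℕ → ℝ → ℝ) : Prop where
  nonneg : ∀ n t, 0 ≤ t → 0 ≤ e n t
  mono : ∀ n s t, 0 ≤ s → s ≤ t → e n s ≤ e n t

theorem sum_nonneg' {e : ℕ → ℝ → ℝ} (he : Nice e) (M : ℕ) {t : ℝ} (ht : 0 ≤ t) :
    0 ≤ ∑ n ∈ Finset.range M, e n t :=
  Finset.sum_nonneg fun n _ => he.nonneg n t ht

theorem sum_le' {e : ℕ → ℝ → ℝ} (he : Nice e) {M M' : ℕ} (h : M ≤ M') {s t : ℝ} (hs : 0 ≤ s)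
    (hst : s ≤ t) : ∑ n ∈ Finset.range M, e n s ≤ ∑ n ∈ Finset.range M', e n t :=
  (Finset.sum_le_sum fun n _ => he.mono n s t hs hst).trans
    (Finset.sum_le_sum_of_subset_of_nonneg (Finset.range_subset_range.2 h)
      fun n _ _ => he.nonneg n t (hs.trans hst))

theorem Om_nonneg {e : ℕ → ℝ → ℝ} (he : Nice e) (M : ℕ) {t : ℝ} (ht : 0 ≤ t) : 0 ≤ Om e M t := by
  unfold Om
  have := sum_nonneg' he M (t := M * t) (by positivity)
  positivity

/-- Scaling. -/
theorem Om_scale {e : ℕ → ℝ → ℝ} (he : Nice e) (M c d : ℕ) (hc : 1 ≤ c) (hd : 1 ≤ d) {t : ℝ}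
    (ht : 0 ≤ t) : d * Om e M (c * t) ≤ Om e (d * c ^ 2 * M) t := by
  unfold Om
  have hc' : (1 : ℝ) ≤ c := by exact_mod_cast hc
  have hd' : (1 : ℝ) ≤ d := by exact_mod_cast hd
  have hM : (0 : ℝ) ≤ M := Nat.cast_nonneg M
  have hcc : (c : ℝ) ≤ (c : ℝ) ^ 2 := by nlinarith
  have h1 : (∑ n ∈ Finset.range M, e n (M * (c * t))) ≤
      ∑ n ∈ Finset.range (d * c ^ 2 * M), e n (((d * c ^ 2 * M : ℕ) : ℝ) * t) := by
    refine sum_le' he ?_ (by positivity) ?_
    · exact Nat.le_mul_of_pos_left M (by positivity)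
    · push_cast
      have h2 : (c : ℝ) ≤ d * c ^ 2 := by nlinarith
      calc (M : ℝ) * (c * t) = c * (M * t) := by ring
        _ ≤ d * c ^ 2 * (M * t) := mul_le_mul_of_nonneg_right h2 (by positivity)
        _ = _ := by ring
  set S := ∑ n ∈ Finset.range M, e n (M * (c * t)) with hS
  set S' := ∑ n ∈ Finset.range (d * c ^ 2 * M), e n (((d * c ^ 2 * M : ℕ) : ℝ) * t) with hS'
  have hS0 : 0 ≤ S := sum_nonneg' he M (by positivity)
  have hS'0 : 0 ≤ S' := hS0.trans h1
  push_cast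
  have h3 : (c : ℝ) * t * S ≤ c ^ 2 * (t * S') := by
    calc (c : ℝ) * t * S ≤ (c : ℝ) ^ 2 * t * S' := by
          apply mul_le_mul _ h1 hS0 (by positivity)
          exact mul_le_mul_of_nonneg_right hcc ht
      _ = _ := by ring
  calc (d : ℝ) * (M * ((c * t) ^ 2 + c * t * S)) = d * M * (c ^ 2 * t ^ 2 + c * t * S) := by ring
    _ ≤ d * M * (c ^ 2 * t ^ 2 + c ^ 2 * (t * S')) := by
        apply mul_le_mul_of_nonneg_left _ (by positivity)
        linarith
    _ = _ := by ring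

theorem Om_mono_right {e : ℕ → ℝ → ℝ} (he : Nice e) (M : ℕ) {s t : ℝ} (hs : 0 ≤ s)
    (hst : s ≤ t) : Om e M s ≤ Om e M t := by
  unfold Om
  have h1 : (∑ n ∈ Finset.range M, e n (M * s)) ≤ ∑ n ∈ Finset.range M, e n (M * t) :=
    sum_le' he le_rfl (by positivity) (by gcongr)
  have h2 := sum_nonneg' he M (t := M * s) (by positivity)
  apply mul_le_mul_of_nonneg_left _ (Nat.cast_nonneg M)
  have h3 : s * (∑ n ∈ Finset.range M, e n (M * s)) ≤ t * ∑ n ∈ Finset.range M, e n (M * t) :=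
    mul_le_mul hst h1 h2 (hs.trans hst)
  have h4 : s ^ 2 ≤ t ^ 2 := pow_le_pow_left₀ hs hst 2
  linarith

theorem Om_mono_left {e : ℕ → ℝ → ℝ} (he : Nice e) {M M' : ℕ} (h : M ≤ M') {t : ℝ}
    (ht : 0 ≤ t) : Om e M t ≤ Om e M' t := by
  unfold Om
  have h0 : (M : ℝ) ≤ M' := by exact_mod_cast h
  have h1 : (∑ n ∈ Finset.range M, e n (M * t)) ≤ ∑ n ∈ Finset.range M', e n (M' * t) :=
    sum_le' he h (by positivity) (by gcongr)
  have h2 := sum_nonneg' he M (t := M * t) (by positivity)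
  apply mul_le_mul h0 _ (by positivity) (Nat.cast_nonneg _)
  have := mul_le_mul_of_nonneg_left h1 ht
  linarith

theorem Om_double {e : ℕ → ℝ → ℝ} (he : Nice e) (M : ℕ) {t : ℝ} (ht : 0 ≤ t) :
    Om e M (2 * t) ≤ 2 * Om e (2 * M) t := by
  unfold Om
  have h1 : (∑ n ∈ Finset.range M, e n (M * (2 * t))) ≤
      ∑ n ∈ Finset.range (2 * M), e n (((2 * M : ℕ) : ℝ) * t) := by
    refine sum_le' he (by omega) (by positivity) (le_of_eq ?_)
    push_cast; ring
  set S := ∑ n ∈ Finset.range M, e n (M * (2 * t)) with hS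
  set S' := ∑ n ∈ Finset.range (2 * M), e n (((2 * M : ℕ) : ℝ) * t) with hS'
  have hS0 : 0 ≤ S := sum_nonneg' he M (by positivity)
  push_cast
  have h2 : t * S ≤ t * S' := mul_le_mul_of_nonneg_left h1 ht
  have h3 : 0 ≤ t * S := by positivity
  have hM : (0 : ℝ) ≤ M := Nat.cast_nonneg M
  calc (M : ℝ) * ((2 * t) ^ 2 + 2 * t * S) = M * (4 * t ^ 2 + 2 * (t * S)) := by ring
    _ ≤ M * (4 * t ^ 2 + 4 * (t * S')) := by
        apply mul_le_mul_of_nonneg_left _ hM
        linarith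
    _ = _ := by ring

/-- The modulus of level `M` does not bound the second differences of `F` at `x`. -/
def BadM {X : Type u} [NormedAddCommGroup X] [NormedSpace ℝ X] (e : ℕ → ℝ → ℝ) (F : X → ℝ)
    (M : ℕ) (x : X) : Prop :=
  ∃ k : X, Om e M ‖k‖ < om F x k

section core
variable {X : Type u} [NormedAddCommGroup X] [NormedSpace ℝ X]

theorem badM_mono {e : ℕ → ℝ → ℝ} (he : Nice e) {F : X → ℝ} {M M' : ℕ} (h : M ≤ M') {x : X}
    (hx : BadM e F M' x) : BadM e F M x := by
  obtain ⟨k, hk⟩ := hx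
  exact ⟨k, lt_of_le_of_lt (Om_mono_left he h (norm_nonneg k)) hk⟩

theorem lockM {e : ℕ → ℝ → ℝ} (he : Nice e) {F : X → ℝ} (hF : ConvexOn ℝ Set.univ F) {M : ℕ}
    {y : X} (hy : BadM e F (2 * M) y) : ∃ κ : ℝ, 0 < κ ∧ ∀ z, F (y + z) ≤ F y + κ →
      F (y - z) ≤ F y + κ → BadM e F M (y + z) := by
  obtain ⟨k, hk⟩ := hy
  refine ⟨(om F y k - Om e (2 * M) ‖k‖) / 4, by linarith, fun z h1 h2 => ⟨(2 : ℝ) • k, ?_⟩⟩
  have h3 := om_lock hF y z k
  have h4 : om F y z = F (y + z) + F (y - z) - 2 * F y := rfl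
  have h5 := Om_double he M (norm_nonneg k)
  have h6 : ‖(2 : ℝ) • k‖ = 2 * ‖k‖ := by rw [norm_smul]; norm_num
  rw [h6]
  linarith

theorem one_step_aux {e : ℕ → ℝ → ℝ} (he : Nice e) {F : X → ℝ} (hF : ConvexOn ℝ Set.univ F) {ι : Type} [Fintype ι]
    [DecidableEq ι] (P : ι → X) (L : ι → ℝ) (M : ℕ) (m : ℕ) :
    ∀ (h : X) (S : Finset (ι × Bool)), Fintype.card (ι × Bool) ≤ S.card + m →
      (∀ j : ι × Bool, F (P j.1 + sg j.2 • h) < L j.1) →
      (∀ j ∈ S, BadM e F (2 ^ (m + 1) * M) (P j.1 + sg j.2 • h)) →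
      ∃ (h : X) (L' : ι × Bool → ℝ), (∀ j : ι × Bool, F (P j.1 + sg j.2 • h) < L' j) ∧
        (∀ j : ι × Bool, L' j < L j.1) ∧
        ∀ j : ι × Bool, (∀ z, Body F (fun j : ι × Bool => P j.1 + sg j.2 • h) L' z →
            BadM e F M (P j.1 + sg j.2 • h + z)) ∨
          (∃ T, ∀ z, Body F (fun j : ι × Bool => P j.1 + sg j.2 • h) L' z →
            ¬ BadM e F T (P j.1 + sg j.2 • h + z)) := by
  induction m with
  | zero =>
    intro h S hS hh hb
    have hSu : ∀ j, j ∈ S := by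
      have : S.card = Fintype.card (ι × Bool) := le_antisymm (Finset.card_le_univ S) (by simpa using hS)
      have h2 := (Finset.card_eq_iff_eq_univ S).1 this
      intro j; rw [h2]; exact Finset.mem_univ j
    have hlock : ∀ j : ι × Bool, ∃ κ : ℝ, 0 < κ ∧ ∀ z, F (P j.1 + sg j.2 • h + z) ≤ F (P j.1 + sg j.2 • h) + κ →
        F (P j.1 + sg j.2 • h - z) ≤ F (P j.1 + sg j.2 • h) + κ → BadM e F M (P j.1 + sg j.2 • h + z) := by
      intro j
      exact lockM he hF (by simpa using hb j (hSu j))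
    choose κ hκ hκ2 using hlock
    refine ⟨h, fun j => min (F (P j.1 + sg j.2 • h) + κ j) ((F (P j.1 + sg j.2 • h) + L j.1) / 2),
      ?_, ?_, ?_⟩
    · intro j
      refine lt_min (by linarith [hκ j]) (by linarith [hh j])
    · intro j
      exact lt_of_le_of_lt (min_le_right _ _) (by linarith [hh j])
    · intro j
      left
      intro z hz
      have := hz j
      exact hκ2 j z (le_trans this.1.le (min_le_left _ _)) (le_trans this.2.le (min_le_left _ _))
  | succ m ih =>
    intro h S hS hh hb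
    have hlock : ∀ j : ι × Bool, ∃ κ : ℝ, 0 < κ ∧ (j ∈ S → ∀ z, F (P j.1 + sg j.2 • h + z) ≤ F (P j.1 + sg j.2 • h) + κ →
        F (P j.1 + sg j.2 • h - z) ≤ F (P j.1 + sg j.2 • h) + κ →
          BadM e F (2 ^ (m + 1) * M) (P j.1 + sg j.2 • h + z)) := by
      intro j
      by_cases hj : j ∈ S
      · have h1 := hb j hj
        have h2 : 2 ^ (m + 1 + 1) * M = 2 * (2 ^ (m + 1) * M) := by ring
        rw [h2] at h1
        obtain ⟨κ, hk, hk2⟩ := lockM he hF h1
        exact ⟨κ, hk, fun _ => hk2⟩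
      · exact ⟨1, one_pos, fun h => absurd h hj⟩
    choose κ hκ hκ2 using hlock
    set L' : ι × Bool → ℝ := fun j => min (F (P j.1 + sg j.2 • h) + κ j)
      ((F (P j.1 + sg j.2 • h) + L j.1) / 2) with hL'
    have hL1 : ∀ j, F (P j.1 + sg j.2 • h) < L' j := fun j =>
      lt_min (by linarith [hκ j]) (by linarith [hh j])
    have hL2 : ∀ j, L' j < L j.1 := fun j =>
      lt_of_le_of_lt (min_le_right _ _) (by linarith [hh j])
    have hbad : ∀ j ∈ S, ∀ z, Body F (fun j : ι × Bool => P j.1 + sg j.2 • h) L' z →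
        BadM e F (2 ^ (m + 1) * M) (P j.1 + sg j.2 • h + z) := by
      intro j hj z hz
      have := hz j
      exact hκ2 j hj z (le_trans this.1.le (min_le_left _ _)) (le_trans this.2.le (min_le_left _ _))
    by_cases hall : ∀ j, j ∉ S → ∃ T, ∀ z, Body F (fun j : ι × Bool => P j.1 + sg j.2 • h) L' z →
            ¬ BadM e F T (P j.1 + sg j.2 • h + z)
    · refine ⟨h, L', hL1, hL2, fun j => ?_⟩
      by_cases hj : j ∈ S
      · left
        intro z hz
        refine badM_mono he ?_ (hbad j hj z hz)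
        exact Nat.le_mul_of_pos_left M (by positivity)
      · right
        exact hall j hj
    · push Not at hall
      obtain ⟨j0, hj0, hw⟩ := hall
      obtain ⟨w, hwB, hwbad⟩ := hw (2 ^ (m + 1) * M)
      have hz := body_sg hwB j0.2
      refine ih (h + sg j0.2 • w) (insert j0 S) ?_ ?_ ?_
      · rw [Finset.card_insert_of_notMem hj0]
        omega
      · intro j
        have h1 := (body_sg hz j.2) j
        have e : P j.1 + sg j.2 • (h + sg j0.2 • w) = P j.1 + sg j.2 • h + sg j.2 • sg j0.2 • w := by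
          rw [smul_add, add_assoc]
        rw [e]
        exact lt_trans h1.1 (hL2 j)
      · intro j hj
        have e : P j.1 + sg j.2 • (h + sg j0.2 • w) = P j.1 + sg j.2 • h + sg j.2 • sg j0.2 • w := by
          rw [smul_add, add_assoc]
        rw [e]
        rcases Finset.mem_insert.1 hj with rfl | hj
        · have : sg j.2 • sg j.2 • w = w := by
            rw [smul_smul, sg_mul_sg, one_smul]
          rw [this]
          exact hwbad
        · exact hbad j hj _ (body_sg hz j.2)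

theorem one_step {e : ℕ → ℝ → ℝ} (he : Nice e) {F : X → ℝ} (hF : ConvexOn ℝ Set.univ F) {ι : Type} [Fintype ι]
    [DecidableEq ι] (P : ι → X) (L : ι → ℝ) (hL : ∀ i, F (P i) < L i) (M : ℕ) :
      ∃ (h : X) (L' : ι × Bool → ℝ), (∀ j : ι × Bool, F (P j.1 + sg j.2 • h) < L' j) ∧
        (∀ j : ι × Bool, L' j < L j.1) ∧
        ∀ j : ι × Bool, (∀ z, Body F (fun j : ι × Bool => P j.1 + sg j.2 • h) L' z →
            BadM e F M (P j.1 + sg j.2 • h + z)) ∨
          (∃ T, ∀ z, Body F (fun j : ι × Bool => P j.1 + sg j.2 • h) L' z →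
            ¬ BadM e F T (P j.1 + sg j.2 • h + z)) := by
  refine one_step_aux he hF P L M (Fintype.card (ι × Bool)) 0 ∅ (by simp) ?_ ?_
  · intro j
    simpa using hL j.1
  · intro j hj
    simp at hj


/-- Tame nodes. -/
def TameM (e : ℕ → ℝ → ℝ) (F : X → ℝ) {n : ℕ} (s : St F n) (i : Node n) : Prop :=
  ∃ T, ∀ z, Body F s.P s.L z → ¬ BadM e F T (s.P i + z)

theorem exists_next {e : ℕ → ℝ → ℝ} (he : Nice e) {F : X → ℝ} (hF : ConvexOn ℝ Set.univ F) (n : ℕ) (s : St F n) :
    ∃ s' : St F (n + 1), (∃ h : X, ∀ j : Node n × Bool, s'.P j = s.P j.1 + sg j.2 • h) ∧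
      (∀ j : Node n × Bool, s'.L j < s.L j.1) ∧
      ∀ j : Node n × Bool, (∀ z, Body F s'.P s'.L z → BadM e F n (s'.P j + z)) ∨ TameM e F s' j := by
  classical
  obtain ⟨h, L', h1, h2, h3⟩ := one_step he hF s.P s.L s.hL n
  exact ⟨⟨fun j : Node n × Bool => s.P j.1 + sg j.2 • h, L', h1⟩, ⟨h, fun j => rfl⟩, h2, h3⟩

theorem core [CompleteSpace X] {e : ℕ → ℝ → ℝ} (he : Nice e) {F : X → ℝ} (hF : ConvexOn ℝ Set.univ F) (hcont : Continuous F)
    (hfin : ∀ x, ∃ T, ¬ BadM e F T x) (R : ℝ) (hR : ∀ x, F x < 1 → ‖x‖ ≤ R) (h0 : F 0 < 1)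
    (hser : ∀ (h : ℕ → X) (C : ℝ), (∀ (n : ℕ) (ε : ℕ → Bool),
      ‖∑ i ∈ Finset.range n, (if ε i then h i else - h i)‖ ≤ C) → ∀ ε : ℕ → Bool,
      CauchySeq (fun n => ∑ i ∈ Finset.range n, (if ε i then h i else - h i))) :
    ∃ (n : ℕ) (s : St F n), ∀ i, TameM e F s i := by
  by_contra hcon
  push Not at hcon
  choose nx hnx1 hnx2 hnx3 using fun n => exists_next he hF n
  let st : (n : ℕ) → St F n := fun n =>
    Nat.rec (motive := fun n => St F n) ⟨fun _ => 0, fun _ => 1, fun _ => h0⟩ (fun n s => nx n s) n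
  have hst : ∀ n, st (n + 1) = nx n (st n) := fun n => rfl
  choose hh hhh using fun n => hnx1 n (st n)
  have hP : ∀ n (j : Node n × Bool), (st (n + 1)).P j = (st n).P j.1 + sg j.2 • hh n := hhh
  have hLL : ∀ n (j : Node n × Bool), (st (n + 1)).L j < (st n).L j.1 := fun n => hnx2 n (st n)
  have hlt : ∀ n (j : Node n × Bool), (∀ z, Body F (st (n + 1)).P (st (n + 1)).L z →
      BadM e F n ((st (n + 1)).P j + z)) ∨ TameM e F (st (n + 1)) j := fun n => hnx3 n (st n)
  -- bodies are nested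
  have hnest : ∀ n (τ : Bool) (z : X), Body F (st (n + 1)).P (st (n + 1)).L z →
      Body F (st n).P (st n).L (sg τ • hh n + z) := by
    intro n τ z hz i
    constructor
    · have h1 := (hz ((i, τ) : Node n × Bool)).1
      rw [hP] at h1
      have h2 := hLL n (i, τ)
      rw [add_assoc] at h1
      exact lt_trans h1 h2
    · have h1 := (hz ((i, !τ) : Node n × Bool)).2
      rw [hP] at h1
      have h2 := hLL n (i, !τ)
      have e : (st n).P i - (sg τ • hh n + z) = (st n).P i + sg (!τ) • hh n - z := by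
        cases τ <;> simp [sg] <;> abel
      rw [e]
      exact lt_trans h1 h2
  have htame : ∀ n (j : Node n × Bool), TameM e F (st n) j.1 → TameM e F (st (n + 1)) j := by
    rintro n j ⟨T, hT⟩
    refine ⟨T, fun z hz => ?_⟩
    have := hT _ (hnest n j.2 z hz)
    rw [hP, add_assoc]
    exact this
  -- a branch of non tame nodes
  obtain ⟨ε, hε⟩ : (⋂ n, {ε : ℕ → Bool | ¬ TameM e F (st n) (nd ε n)}).Nonempty := by
    refine IsCompact.nonempty_iInter_of_sequence_nonempty_isCompact_isClosed _ ?_ ?_ ?_ ?_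
    · intro n ε hε ht
      exact hε (htame n (nd ε n, ε n) ht)
    · intro n
      obtain ⟨i, hi⟩ := hcon n (st n)
      obtain ⟨ε, rfl⟩ := exists_nd n i
      exact ⟨ε, hi⟩
    · exact (isClosed_nd 0 {i | ¬ TameM e F (st 0) i}).isCompact
    · intro n
      exact isClosed_nd n {i | ¬ TameM e F (st n) i}
  rw [Set.mem_iInter] at hε
  -- centres along a branch
  have hPc : ∀ (ε : ℕ → Bool) n, (st n).P (nd ε n) =
      ∑ i ∈ Finset.range n, (if ε i then hh i else - hh i) := by
    intro ε n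
    induction n with
    | zero => rfl
    | succ n ih =>
      rw [Finset.sum_range_succ, ← ih]
      have := hP n (nd ε n, ε n)
      rw [show nd ε (n + 1) = (nd ε n, ε n) from rfl, this]
      cases h : ε n <;> simp [sg]
  -- Lemma A
  have hA : ∀ (k n : ℕ) (δ : Node n) (ε : ℕ → Bool),
      F ((st n).P δ + ((st (n + k)).P (nd ε (n + k)) - (st n).P (nd ε n))) < (st n).L δ := by
    intro k
    induction k with
    | zero => intro n δ ε; simpa using (st n).hL δ
    | succ k ih =>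
      intro n δ ε
      have h1 := ih (n + 1) ((δ, ε n) : Node n × Bool) ε
      have h2 := hP n (δ, ε n)
      have h3 := hP n (nd ε n, ε n)
      rw [h2, show nd ε (n + 1) = (nd ε n, ε n) from rfl, h3] at h1
      have e : (st n).P δ + ((st (n + (k + 1))).P (nd ε (n + (k + 1))) - (st n).P (nd ε n)) =
          (st n).P δ + sg (ε n) • hh n + ((st (n + 1 + k)).P (nd ε (n + 1 + k)) -
            ((st n).P (nd ε n) + sg (ε n) • hh n)) := by
        have e1 : n + (k + 1) = n + 1 + k := by ring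
        rw [e1]
        abel
      rw [e]
      exact lt_trans h1 (hLL n (δ, ε n))
  have hbd : ∀ (n : ℕ) (ε : ℕ → Bool), ‖∑ i ∈ Finset.range n, (if ε i then hh i else - hh i)‖ ≤ R := by
    intro n ε
    rw [← hPc]
    apply hR
    have := hA n 0 () ε
    have e0 : (st 0).P () = 0 := rfl
    have e1 : (st 0).P (nd ε 0) = 0 := rfl
    have e2 : (st 0).L () = 1 := rfl
    rw [e0, e1, e2, zero_add, sub_zero, zero_add] at this
    exact this
  have hlim : ∀ ε : ℕ → Bool, ∃ x, Tendsto (fun n => (st n).P (nd ε n)) atTop (𝓝 x) := by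
    intro ε
    have := cauchySeq_tendsto_of_complete (hser hh R hbd ε)
    obtain ⟨x, hx⟩ := this
    refine ⟨x, ?_⟩
    simpa only [hPc] using hx
  obtain ⟨x, hx⟩ := hlim ε
  -- the complementary branch
  have hcomp : ∀ m, (st m).P (nd (fun i => !(ε i)) m) = - (st m).P (nd ε m) := by
    intro m
    rw [hPc, hPc, ← Finset.sum_neg_distrib]
    refine Finset.sum_congr rfl fun i _ => ?_
    cases ε i <;> simp
  have hstrict : ∀ (ε : ℕ → Bool) (x : X), Tendsto (fun n => (st n).P (nd ε n)) atTop (𝓝 x) →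
      ∀ (n : ℕ) (δ : Node n), F ((st n).P δ + (x - (st n).P (nd ε n))) < (st n).L δ := by
    intro ε x hx n δ
    have h2 := hP n (δ, ε n)
    have h3 := hP n (nd ε n, ε n)
    have hle : F ((st n).P δ + (x - (st n).P (nd ε n))) ≤ (st (n + 1)).L (δ, ε n) := by
      have ht : Tendsto (fun k => F ((st (n+1)).P (δ, ε n) + ((st (n + 1 + k)).P (nd ε (n + 1 + k)) -
          (st (n+1)).P (nd ε (n+1))))) atTop
          (𝓝 (F ((st (n+1)).P (δ, ε n) + (x - (st (n+1)).P (nd ε (n+1)))))) := by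
        apply (hcont.tendsto _).comp
        apply Tendsto.const_add
        apply Tendsto.sub_const
        exact hx.comp (tendsto_atTop_mono (fun k => by omega : ∀ k, k ≤ n + 1 + k) tendsto_id)
      have h4 := le_of_tendsto ht (Eventually.of_forall fun k => (hA k (n+1) (δ, ε n) ε).le)
      have e : (st n).P δ + (x - (st n).P (nd ε n)) =
          (st (n+1)).P (δ, ε n) + (x - (st (n+1)).P (nd ε (n+1))) := by
        rw [show nd ε (n + 1) = (nd ε n, ε n) from rfl, h2, h3]
        simp only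
        abel
      rw [e]
      exact h4
    exact lt_of_le_of_lt hle (hLL n (δ, ε n))
  have hbody : ∀ n, Body F (st n).P (st n).L (x - (st n).P (nd ε n)) := by
    intro n δ
    refine ⟨hstrict ε x hx n δ, ?_⟩
    have hx' : Tendsto (fun m => (st m).P (nd (fun i => !(ε i)) m)) atTop (𝓝 (-x)) := by
      simp only [hcomp]
      exact hx.neg
    have := hstrict _ _ hx' n δ
    rw [hcomp] at this
    have e : (st n).P δ - (x - (st n).P (nd ε n)) = (st n).P δ + (-x - -(st n).P (nd ε n)) := by abel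
    rw [e]
    exact this
  obtain ⟨T, hT⟩ := hfin x
  have hloc := (hlt T (nd ε T, ε T)).resolve_right (hε (T + 1))
  have := hloc _ (hbody (T + 1))
  have e : (st (T+1)).P (nd ε T, ε T) + (x - (st (T+1)).P (nd ε (T + 1))) = x := by
    rw [show nd ε (T + 1) = (nd ε T, ε T) from rfl]
    abel
  rw [e] at this
  exact hT this

end core
end Pool.Agent.Y537.PM
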