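import Pool.Agent.Y537.PM.Pow
import Pool.Agent.Y537.PM.C0

set_option autoImplicit false

/-!
# Pointwise moduli of smoothness: the parts of the final statement
-/

open Filter Topology

namespace Pool.Agent.Y537.PM

open Pool.Agent.Results.MP_b4da01_an.SuperreflexiveYes

universe u v

/-- The second difference of `f` at `x` in the direction `h` with the step `t`. -/
def sd {X : Type u} [NormedAddCommGroup X] [NormedSpace ℝ X] (f : X → ℝ) (x h : X) (t : ℝ) : ℝ :=
  f (x + t • h) + f (x - t • h) - 2 * f x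

/-- Every `ω n t` is `o(t)` as `t → 0+`. -/
def SmallModuli (ω : ℕ → ℝ → ℝ) : Prop := ∀ n, Tendsto (fun t => ω n t / t) (𝓝[>] 0) (𝓝 0)

/-- `f` is a continuous convex function on `X`, and some sublevel set `{f ≤ c}` with `c` larger
than the infimum is bounded. -/
def ConvexWell {X : Type u} [NormedAddCommGroup X] [NormedSpace ℝ X] (f : X → ℝ) : Prop :=
  ConvexOn ℝ Set.univ f ∧ Continuous f ∧ ∃ (x₀ : X) (c R : ℝ), f x₀ < c ∧ ∀ x, f x ≤ c → ‖x‖ ≤ R

/-- `X` has an equivalent norm with a modulus of smoothness of power type `r`. -/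
def PowerRenormable (r : ℝ) (X : Type u) [NormedAddCommGroup X] [NormedSpace ℝ X] : Prop :=
  ∃ q : Seminorm ℝ X, EquivNorm q ∧ PowerType r q

section
variable {X : Type u} [NormedAddCommGroup X] [NormedSpace ℝ X]

theorem well_of_norm (p : Seminorm ℝ X) (hpe : EquivNorm p) :
    ConvexWell (fun x => p x ^ 2) := by
  obtain ⟨a, b, ha, hb, hp⟩ := hpe
  refine ⟨⟨convex_univ, fun x _ y _ a b ha hb hab => by
      simpa [smul_eq_mul] using tg_convF p x y a b ha hb hab⟩,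
    (tg_cont p b hb fun x => (hp x).2).pow 2, 0, 1, 1 / a, by simp, fun x hx => ?_⟩
  have h1 : p x ≤ 1 := by
    by_contra h
    push Not at h
    have : (1 : ℝ) < p x ^ 2 := one_lt_pow₀ h two_ne_zero
    exact absurd hx (not_le.2 this)
  rw [le_div_iff₀ ha]
  linarith [(hp x).1]

theorem us_of_convex [CompleteSpace X] (hc : ¬ ContainsC0 X) (ω : ℕ → ℝ → ℝ)
    (hω : SmallModuli ω) (f : X → ℝ) (hf : ConvexWell f)
    (hx : ∀ x h : X, ∃ n : ℕ, ∀ᶠ t in 𝓝[>] (0 : ℝ), sd f x h t ≤ ω n t) : USRenormable X := by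
  choose e e1 e2 e3 e4 using fun n => exists_majorant (ω n) (hω n)
  have he : Nice e := ⟨fun n t _ => e1 n t, fun n s t _ hst => e2 n hst⟩
  obtain ⟨hconv, hcont, x0, c, R, h0, hbdd⟩ := hf
  obtain ⟨p, hpe, hp⟩ := norm_of_convex he f hconv hcont x0 c R h0 hbdd (fun x h => by
    obtain ⟨n, hn⟩ := hx x h
    refine ⟨n, ?_⟩
    filter_upwards [hn, e4 n] with t h1 h2
    exact le_trans h1 h2)
  have hce := cum_nice he
  obtain ⟨q, hq, T, hT, hs⟩ := exists_norm hc hce p hpe hp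
  refine ⟨q, hq, fun ε hε => ?_⟩
  obtain ⟨δ, hδ, h1⟩ := Om_small (cum_tendsto e3) T hT hε
  refine ⟨δ, hδ, fun x h hx1 hh => (hs x h hx1).trans ?_⟩
  have := h1 (q h) (apply_nonneg q h) hh
  linarith

theorem nice_pow (s : ℕ → ℝ) (hs : ∀ n, 0 < s n) : Nice (fun n t => (n : ℝ) * t ^ s n) :=
  ⟨fun n t ht => by positivity, fun n a b ha hab =>
    mul_le_mul_of_nonneg_left (Real.rpow_le_rpow ha hab (hs n).le) (Nat.cast_nonneg n)⟩

theorem pow_pow (s : ℝ) (n : ℕ) : Pow s (fun t => (n : ℝ) * t ^ s) :=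
  ⟨n, 1, Nat.cast_nonneg n, one_pos, fun _ _ _ => le_rfl⟩

theorem rpow_split {t s : ℝ} (ht : 0 < t) : t ^ (1 + s) = t * t ^ s := by
  rw [Real.rpow_add ht, Real.rpow_one]

/-- Fixed exponents, norms. -/
theorem power_of_norm [CompleteSpace X] (hc : ¬ ContainsC0 X) {r : ℝ} (hr : 1 < r) (hr2 : r ≤ 2)
    (p : Seminorm ℝ X) (hpe : EquivNorm p)
    (hx : ∀ x : X, x ≠ 0 → ∀ h : X, ∃ K : ℝ, ∀ᶠ t in 𝓝[>] (0 : ℝ), sd p x h t ≤ K * t ^ r) :
    PowerRenormable r X := by
  have he := nice_pow (fun _ => r - 1) (fun _ => by linarith)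
  obtain ⟨q, hq, T, hT, hs⟩ := exists_norm hc he p hpe (fun x h0 h => by
    obtain ⟨K, hK⟩ := hx x h0 h
    obtain ⟨n, hn⟩ := exists_nat_ge K
    refine ⟨n, ?_⟩
    filter_upwards [hK, self_mem_nhdsWithin] with t h1 ht
    have ht' : (0 : ℝ) < t := ht
    have h2 : t ^ r = t * t ^ (r - 1) := by
      rw [← rpow_split ht']; congr 1; ring
    refine le_trans h1 ?_
    rw [h2]
    have h3 : K * (t * t ^ (r - 1)) ≤ n * (t * t ^ (r - 1)) :=
      mul_le_mul_of_nonneg_right hn (by positivity)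
    linarith)
  refine ⟨q, hq, ?_⟩
  have := powerType_of_Om hT (s := r - 1) (by linarith) (by linarith)
    (fun n _ => pow_pow (r - 1) n) q hs
  rwa [show 1 + (r - 1) = r by ring] at this

/-- Fixed exponents, convex functions. -/
theorem power_of_convex [CompleteSpace X] (hc : ¬ ContainsC0 X) {r : ℝ} (hr : 1 < r) (hr2 : r ≤ 2)
    (f : X → ℝ) (hf : ConvexWell f)
    (hx : ∀ x h : X, ∃ K : ℝ, ∀ᶠ t in 𝓝[>] (0 : ℝ), sd f x h t ≤ K * t ^ r) :
    PowerRenormable r X := by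
  have he := nice_pow (fun _ => r - 1) (fun _ => by linarith)
  obtain ⟨hconv, hcont, x0, c, R, h0, hbdd⟩ := hf
  obtain ⟨p, hpe, hp⟩ := norm_of_convex he f hconv hcont x0 c R h0 hbdd (fun x h => by
    obtain ⟨K, hK⟩ := hx x h
    obtain ⟨n, hn⟩ := exists_nat_ge K
    refine ⟨n, ?_⟩
    filter_upwards [hK, self_mem_nhdsWithin] with t h1 ht
    have ht' : (0 : ℝ) < t := ht
    have h2 : t ^ r = t * t ^ (r - 1) := by
      rw [← rpow_split ht']; congr 1; ring
    refine le_trans h1 ?_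
    rw [h2]
    have h3 : K * (t * t ^ (r - 1)) ≤ n * (t * t ^ (r - 1)) :=
      mul_le_mul_of_nonneg_right hn (by positivity)
    linarith)
  obtain ⟨q, hq, T, hT, hs⟩ := exists_norm hc (cum_nice he) p hpe hp
  refine ⟨q, hq, ?_⟩
  have := powerType_of_Om hT (s := r - 1) (by linarith) (by linarith)
    (fun n _ => pow_cum n fun m _ => pow_pow (r - 1) m) q hs
  rwa [show 1 + (r - 1) = r by ring] at this

/-- Exponents which depend on the point and on the direction. -/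
theorem power_of_norm_var [CompleteSpace X] (hc : ¬ ContainsC0 X)
    (p : Seminorm ℝ X) (hpe : EquivNorm p)
    (hx : ∀ x : X, x ≠ 0 → ∀ h : X, ∃ r : ℝ, 1 < r ∧ ∃ K : ℝ, ∀ᶠ t in 𝓝[>] (0 : ℝ),
      sd p x h t ≤ K * t ^ r) : ∃ r : ℝ, 1 < r ∧ PowerRenormable r X := by
  have he := nice_pow (fun n => 1 / ((n : ℝ) + 1)) (fun n => by positivity)
  obtain ⟨q, hq, T, hT, hs⟩ := exists_norm hc he p hpe (fun x h0 h => by
    obtain ⟨r, hr, K, hK⟩ := hx x h0 h
    obtain ⟨n, hn⟩ := exists_nat_ge (|K| + 1 / (r - 1))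
    have hr1 : 0 < r - 1 := by linarith
    have hdiv : 0 < 1 / (r - 1) := by positivity
    refine ⟨n, ?_⟩
    filter_upwards [hK, Ioo_mem_nhdsGT one_pos] with t h1 ht
    have ht' : (0 : ℝ) < t := ht.1
    have h2 : t ^ r = t * t ^ (r - 1) := by
      rw [← rpow_split ht']; congr 1; ring
    have h4 : 1 / ((n : ℝ) + 1) ≤ r - 1 := by
      have h5 : 1 / (r - 1) ≤ (n : ℝ) + 1 := by linarith [abs_nonneg K]
      rw [div_le_iff₀ (by positivity)]
      rw [div_le_iff₀ hr1] at h5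
      linarith
    have h5 : t ^ (r - 1) ≤ t ^ (1 / ((n : ℝ) + 1)) :=
      Real.rpow_le_rpow_of_exponent_ge ht' ht.2.le h4
    have h6 : K ≤ n := by linarith [le_abs_self K]
    refine le_trans h1 ?_
    rw [h2]
    calc K * (t * t ^ (r - 1)) ≤ n * (t * t ^ (r - 1)) :=
          mul_le_mul_of_nonneg_right h6 (by positivity)
      _ ≤ n * (t * t ^ (1 / ((n : ℝ) + 1))) := by gcongr
      _ = t * (n * t ^ (1 / ((n : ℝ) + 1))) := by ring)
  have hT0 : (0 : ℝ) < T := by exact_mod_cast hT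
  have hT1 : (1 : ℝ) ≤ T := by exact_mod_cast hT
  refine ⟨1 + 1 / (T : ℝ), by linarith [show (0 : ℝ) < 1 / T by positivity], q, hq, ?_⟩
  refine powerType_of_Om hT (by positivity) ?_ (fun n hn => ?_) q hs
  · rw [div_le_one hT0]; exact hT1
  · refine (pow_pow (1 / ((n : ℝ) + 1)) n).mono ?_ (by positivity)
    have : (n : ℝ) + 1 ≤ T := by exact_mod_cast hn
    exact one_div_le_one_div_of_le (by positivity) this

/-- The gradient inequality. -/
theorem conv_grad (f : X → ℝ) (hconv : ConvexOn ℝ Set.univ f) (D : X →L[ℝ] ℝ) (y : X)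
    (hD : HasGateauxDerivAt f D y) (h : X) : D h ≤ f (y + h) - f y := by
  have h1 : Tendsto (fun t : ℝ => (f (y + t • h) - f y) / t) (𝓝[>] 0) (𝓝 (D h)) :=
    (hD h).mono_left (nhdsWithin_mono _ (fun t ht => ne_of_gt ht))
  apply le_of_tendsto h1
  have h2 : Set.Ioo (0 : ℝ) 1 ∈ 𝓝[>] (0 : ℝ) := Ioo_mem_nhdsGT one_pos
  filter_upwards [h2] with t ht
  rw [div_le_iff₀ ht.1]
  have e1 : y + t • h = (1 - t) • y + t • (y + h) := by module
  have h3 := hconv.2 (Set.mem_univ y) (Set.mem_univ (y + h))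
    (show 0 ≤ 1 - t by linarith [ht.2]) ht.1.le (by ring)
  rw [← e1] at h3
  simp only [smul_eq_mul] at h3
  nlinarith

/-- Second derivatives bound second differences. -/
theorem lines_of_twiceGateaux (f : X → ℝ) (hconv : ConvexOn ℝ Set.univ f) (x : X)
    (hx : TwiceGateauxAt f x) (k : X) :
    ∃ K : ℝ, ∀ᶠ t in 𝓝[>] (0 : ℝ), sd f x k t ≤ K * t ^ (2 : ℝ) := by
  obtain ⟨D, B, hD, _, hB⟩ := hx
  have hlim := (hB k k).add (hB (-k) (-k))
  have hev1 : ∀ᶠ t : ℝ in 𝓝[>] 0, (D (x + t • k) k - D x k) / t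
      + (D (x + t • (-k)) (-k) - D x (-k)) / t < B k k + B (-k) (-k) + 1 :=
    hlim.eventually_lt_const (by linarith)
  have hc : ∀ k : X, Tendsto (fun t : ℝ => x + t • k) (𝓝[>] 0) (𝓝 x) := by
    intro k
    have h1 : Continuous (fun t : ℝ => x + t • k) := by fun_prop
    have h2 := h1.tendsto 0
    simp only [zero_smul, add_zero] at h2
    exact h2.mono_left nhdsWithin_le_nhds
  have hev2 := (hc k).eventually hD
  have hev3 := (hc (-k)).eventually hD
  refine ⟨B k k + B (-k) (-k) + 1, ?_⟩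
  filter_upwards [hev1, hev2, hev3, self_mem_nhdsWithin] with t h1 h2 h3 ht
  have ht' : (0 : ℝ) < t := ht
  have g1 := conv_grad f hconv _ _ h2 (x - (x + t • k))
  have g2 := conv_grad f hconv _ _ h3 (x - (x + t • (-k)))
  rw [add_sub_cancel] at g1 g2
  have e1 : x - (x + t • k) = (-t) • k := by module
  have e2 : x - (x + t • (-k)) = (-t) • (-k) := by module
  rw [e1, map_smul, smul_eq_mul] at g1
  rw [e2, map_smul, smul_eq_mul] at g2
  have e3 : sd f x k t = f (x + t • k) + f (x + t • (-k)) - 2 * f x := by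
    unfold sd
    rw [smul_neg, ← sub_eq_add_neg]
  have e4 : D x (-k) = - D x k := map_neg _ _
  have h5 : (D (x + t • k) k + D (x + t • (-k)) (-k)) / t < B k k + B (-k) (-k) + 1 := by
    rw [e4] at h1
    calc (D (x + t • k) k + D (x + t • (-k)) (-k)) / t
        = (D (x + t • k) k - D x k) / t + (D (x + t • (-k)) (-k) - -(D x k)) / t := by ring
      _ < _ := h1
  rw [div_lt_iff₀ ht'] at h5
  rw [e3, Real.rpow_two]
  calc f (x + t • k) + f (x + t • (-k)) - 2 * f x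
      ≤ t * (D (x + t • k) k + D (x + t • (-k)) (-k)) := by linarith
    _ ≤ t * ((B k k + B (-k) (-k) + 1) * t) := by
        apply mul_le_mul_of_nonneg_left h5.le ht'.le
    _ = (B k k + B (-k) (-k) + 1) * t ^ 2 := by ring

theorem norm_convex (p : Seminorm ℝ X) : ConvexOn ℝ Set.univ (fun x => p x) := p.convexOn

/-- The square of a norm of power type. -/
theorem square_of_power (q : Seminorm ℝ X) (hqe : EquivNorm q) {r : ℝ} (hr2 : r ≤ 2)
    (hq : PowerType r q) (x h : X) :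
    ∃ K : ℝ, ∀ᶠ t in 𝓝[>] (0 : ℝ), sd (fun x => q x ^ 2) x h t ≤ K * t ^ r := by
  have hqh : 0 ≤ q h := apply_nonneg q h
  have hqx : 0 ≤ q x := apply_nonneg q x
  obtain ⟨K, hK⟩ : ∃ K : ℝ, x ≠ 0 → ∀ᶠ t in 𝓝[>] (0 : ℝ),
      q (x + t • h) + q (x - t • h) - 2 * q x ≤ K * t ^ r := by
    by_cases h0 : x = 0
    · exact ⟨0, fun h => absurd h0 h⟩
    · obtain ⟨K, hK⟩ := lines_of_powerType q hqe hq x h0 h
      exact ⟨K, fun _ => hK⟩
  have hev : ∀ᶠ t in 𝓝[>] (0 : ℝ), 2 * q x * om (fun y => q y) x (t • h) ≤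
      2 * q x * (K * t ^ r) := by
    by_cases h0 : x = 0
    · refine Eventually.of_forall fun t => ?_
      rw [h0, map_zero]; simp
    · filter_upwards [hK h0] with t ht
      exact mul_le_mul_of_nonneg_left ht (by positivity)
  refine ⟨2 * q h ^ 2 + 2 * q x * K, ?_⟩
  filter_upwards [hev, Ioo_mem_nhdsGT one_pos] with t h1 ht
  have ht' : (0 : ℝ) < t := ht.1
  have h2 := om_sq_le q x (t • h)
  have h3 : q (t • h) = t * q h := by rw [map_smul_eq_mul, Real.norm_of_nonneg ht'.le]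
  rw [h3] at h2
  have h4 : t ^ 2 ≤ t ^ r := by
    rw [← Real.rpow_two]
    exact Real.rpow_le_rpow_of_exponent_ge ht' ht.2.le hr2
  have h5 : om (fun y => q y ^ 2) x (t • h) = sd (fun x => q x ^ 2) x h t := rfl
  rw [← h5]
  have h6 : 2 * (t * q h) ^ 2 ≤ 2 * q h ^ 2 * t ^ r := by
    calc 2 * (t * q h) ^ 2 = 2 * q h ^ 2 * t ^ 2 := by ring
      _ ≤ 2 * q h ^ 2 * t ^ r := mul_le_mul_of_nonneg_left h4 (by positivity)
  linarith

end

end Pool.Agent.Y537.PM
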