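import Pool.Agent.Results.MP_b4da01_an.SuperreflexiveYes

set_option autoImplicit false

/-!
# Pointwise moduli of smoothness: from tame systems to norms
-/

open Filter Topology

namespace Pool.Agent.Y537.PM

open Pool.Agent.Results.MP_b4da01_an.SuperreflexiveYes

universe u v

theorem tg_oneW {X : Type u} [NormedAddCommGroup X] [NormedSpace ℝ X]
    (p : Seminorm ℝ X) (b : ℝ) (hb : 0 < b) (hp : ∀ x : X, p x ≤ b * ‖x‖) (x k : X) (s L W : ℝ)
    (hsL : s < L) (hL : p x ^ 2 < L) (hk : ‖k‖ ≤ 1)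
    (hW0 : 0 ≤ W) (hT : om (fun x => p x ^ 2) x k ≤ W) :
    (max (p (x + k) ^ 2 - s) 0) ^ 2 + (max (p (x - k) ^ 2 - s) 0) ^ 2 - 2 * (max (p x ^ 2 - s) 0) ^ 2
      ≤ 2 * (L - s) * W + 2 * (b * (2 * Real.sqrt L + b)) ^ 2 * ‖k‖ ^ 2 := by
  have h1 := tg_scalar s (p x ^ 2) (p (x + k) ^ 2)
  have h2 := tg_scalar s (p x ^ 2) (p (x - k) ^ 2)
  have h3 := tg_diff p b hb hp x k L hL hk
  have h4 := tg_diff p b hb hp x (-k) L hL (by rwa [norm_neg])
  rw [norm_neg, ← sub_eq_add_neg] at h4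
  unfold om at hT
  simp only at hT
  have hm0 : 0 ≤ max (p x ^ 2 - s) 0 := le_max_right _ _
  have hm1 : max (p x ^ 2 - s) 0 ≤ L - s := max_le (by linarith) (by linarith)
  have hT' : p (x + k) ^ 2 + p (x - k) ^ 2 - 2 * p x ^ 2 ≤ W := hT
  have h5 : max (p x ^ 2 - s) 0 * (p (x + k) ^ 2 + p (x - k) ^ 2 - 2 * p x ^ 2)
      ≤ (L - s) * W := by
    calc _ ≤ max (p x ^ 2 - s) 0 * W := mul_le_mul_of_nonneg_left hT' hm0
      _ ≤ _ := mul_le_mul_of_nonneg_right hm1 hW0
  nlinarith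

theorem exists_function_of_tameW {X : Type u} [NormedAddCommGroup X] [NormedSpace ℝ X]
    (p : Seminorm ℝ X) (a b : ℝ) (ha : 0 < a) (hb : 0 < b)
    (hp : ∀ x : X, a * ‖x‖ ≤ p x ∧ p x ≤ b * ‖x‖)
    {ι : Type} [Fintype ι] [Nonempty ι] (P : ι → X) (L : ι → ℝ) (hL : ∀ i, p (P i) ^ 2 < L i)
    (W : ℝ → ℝ) (hW0 : ∀ t, 0 ≤ t → 0 ≤ W t)
    (hT : ∀ i z, (∀ j, p (P j + z) ^ 2 < L j ∧ p (P j - z) ^ 2 < L j) →
      ∀ k, om (fun x => p x ^ 2) (P i + z) k ≤ W ‖k‖) :
    ∃ g : X → ℝ, ConvexOn ℝ Set.univ g ∧ Continuous g ∧ g 0 = 0 ∧ (∀ x, g (-x) = g x) ∧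
      (∃ R : ℝ, ∀ x, g x ≤ 1 / 2 → ‖x‖ ≤ R) ∧
      ∃ C : ℝ, 0 ≤ C ∧ ∀ z, g z ≤ 1 / 2 → ∀ k, ‖k‖ ≤ 1 → om g z k ≤ C * (W ‖k‖ + ‖k‖ ^ 2) := by
  have hpc : Continuous p := tg_cont p b hb (fun x => (hp x).2)
  let s : ι → ℝ := fun i => p (P i) ^ 2
  let c : ι → ℝ := fun i => 1 / (L i - s i) ^ 2
  have hsL : ∀ i, s i < L i := hL
  have hc : ∀ i, 0 < c i := fun i => by
    have := hsL i
    have h : 0 < L i - s i := by linarith
    positivity
  let g : X → ℝ := fun z => ∑ i, c i * ((max (p (P i + z) ^ 2 - s i) 0) ^ 2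
    + (max (p (P i - z) ^ 2 - s i) 0) ^ 2)
  have hbody : ∀ z, g z ≤ 1 / 2 → ∀ j, p (P j + z) ^ 2 < L j ∧ p (P j - z) ^ 2 < L j := by
    intro z hz j
    have h1 : c j * ((max (p (P j + z) ^ 2 - s j) 0) ^ 2 + (max (p (P j - z) ^ 2 - s j) 0) ^ 2) ≤ g z :=
      Finset.single_le_sum (f := fun i => c i * ((max (p (P i + z) ^ 2 - s i) 0) ^ 2
        + (max (p (P i - z) ^ 2 - s i) 0) ^ 2))
        (fun i _ => mul_nonneg (hc i).le (by positivity)) (Finset.mem_univ j)
    have hd : 0 < L j - s j := by have := hsL j; linarith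
    have hcd : c j * (L j - s j) ^ 2 = 1 := by
      show 1 / (L j - s j) ^ 2 * (L j - s j) ^ 2 = 1
      field_simp
    have key : ∀ t r : ℝ, 0 ≤ r → c j * ((max (t - s j) 0) ^ 2 + r) ≤ 1 / 2 → t < L j := by
      intro t r hr ht
      by_contra hno
      rw [not_lt] at hno
      have h2 : L j - s j ≤ max (t - s j) 0 := le_trans (by linarith) (le_max_left _ _)
      have h3 : (L j - s j) ^ 2 ≤ (max (t - s j) 0) ^ 2 := by gcongr
      have h4 : c j * (L j - s j) ^ 2 ≤ c j * ((max (t - s j) 0) ^ 2 + r) :=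
        mul_le_mul_of_nonneg_left (by linarith) (hc j).le
      linarith
    refine ⟨key _ _ (sq_nonneg _) (h1.trans hz), key _ ((max (p (P j + z) ^ 2 - s j) 0) ^ 2) (sq_nonneg _) ?_⟩
    rw [add_comm]
    exact h1.trans hz
  refine ⟨g, ?_, ?_, ?_, ?_, ?_, ?_⟩
  · refine ⟨convex_univ, fun x _ y _ α β hα hβ hαβ => ?_⟩
    show ∑ i, c i * ((max (p (P i + (α • x + β • y)) ^ 2 - s i) 0) ^ 2
      + (max (p (P i - (α • x + β • y)) ^ 2 - s i) 0) ^ 2) ≤ α * g x + β * g y
    show _ ≤ α * (∑ i, c i * ((max (p (P i + x) ^ 2 - s i) 0) ^ 2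
      + (max (p (P i - x) ^ 2 - s i) 0) ^ 2)) + β * (∑ i, c i * ((max (p (P i + y) ^ 2 - s i) 0) ^ 2
      + (max (p (P i - y) ^ 2 - s i) 0) ^ 2))
    rw [Finset.mul_sum, Finset.mul_sum, ← Finset.sum_add_distrib]
    refine Finset.sum_le_sum fun i _ => ?_
    have e1 : P i + (α • x + β • y) = α • (P i + x) + β • (P i + y) := by
      rw [smul_add, smul_add]
      have : P i = α • P i + β • P i := by rw [← add_smul, hαβ, one_smul]
      nth_rewrite 1 [this]
      abel
    have e2 : P i - (α • x + β • y) = α • (P i - x) + β • (P i - y) := by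
      rw [smul_sub, smul_sub]
      have : P i = α • P i + β • P i := by rw [← add_smul, hαβ, one_smul]
      nth_rewrite 1 [this]
      abel
    rw [e1, e2]
    have h1 := tg_conv1 p (s i) (P i + x) (P i + y) α β hα hβ hαβ
    have h2 := tg_conv1 p (s i) (P i - x) (P i - y) α β hα hβ hαβ
    have h3 := mul_le_mul_of_nonneg_left (add_le_add h1 h2) (hc i).le
    refine h3.trans (le_of_eq ?_)
    ring
  · show Continuous fun z => ∑ i, c i * ((max (p (P i + z) ^ 2 - s i) 0) ^ 2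
      + (max (p (P i - z) ^ 2 - s i) 0) ^ 2)
    fun_prop
  · show ∑ i, c i * ((max (p (P i + 0) ^ 2 - s i) 0) ^ 2 + (max (p (P i - 0) ^ 2 - s i) 0) ^ 2) = 0
    apply Finset.sum_eq_zero
    intro i _
    rw [add_zero, sub_zero]
    show c i * ((max (p (P i) ^ 2 - p (P i) ^ 2) 0) ^ 2 + (max (p (P i) ^ 2 - p (P i) ^ 2) 0) ^ 2) = 0
    rw [sub_self, max_self]; ring
  · intro x
    show ∑ i, c i * ((max (p (P i + -x) ^ 2 - s i) 0) ^ 2 + (max (p (P i - -x) ^ 2 - s i) 0) ^ 2)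
      = ∑ i, c i * ((max (p (P i + x) ^ 2 - s i) 0) ^ 2 + (max (p (P i - x) ^ 2 - s i) 0) ^ 2)
    refine Finset.sum_congr rfl fun i _ => ?_
    rw [sub_neg_eq_add, ← sub_eq_add_neg, add_comm ((max (p (P i - x) ^ 2 - s i) 0) ^ 2)]
  · obtain ⟨i⟩ := ‹Nonempty ι›
    refine ⟨(Real.sqrt (L i) + p (P i)) / a, fun x hx => ?_⟩
    have h1 := (hbody x hx i).1
    have h2 : p (P i + x) ≤ Real.sqrt (L i) := Real.le_sqrt_of_sq_le h1.le
    have h3 : p x ≤ p (P i + x) + p (P i) := by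
      have := map_sub_le_add p (P i + x) (P i)
      rwa [add_sub_cancel_left] at this
    rw [le_div_iff₀ ha, mul_comm]
    exact (hp x).1.trans (by linarith)
  · refine ⟨∑ i, c i * (2 * (2 * (L i - s i) + 2 * (b * (2 * Real.sqrt (L i) + b)) ^ 2)),
      Finset.sum_nonneg fun i _ => mul_nonneg (hc i).le (by
        have := hsL i
        have h1 : 0 ≤ L i - s i := by linarith
        positivity), fun z hz k hk => ?_⟩
    have hb1 := hbody z hz
    have hb2 : ∀ j, p (P j + -z) ^ 2 < L j ∧ p (P j - -z) ^ 2 < L j := fun j => by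
      rw [sub_neg_eq_add, ← sub_eq_add_neg]; exact ⟨(hb1 j).2, (hb1 j).1⟩
    have e0 : om g z k = ∑ i, c i * (((max (p ((P i + z) + k) ^ 2 - s i) 0) ^ 2
        + (max (p ((P i + z) - k) ^ 2 - s i) 0) ^ 2 - 2 * (max (p (P i + z) ^ 2 - s i) 0) ^ 2)
        + ((max (p ((P i + -z) + k) ^ 2 - s i) 0) ^ 2
        + (max (p ((P i + -z) - k) ^ 2 - s i) 0) ^ 2 - 2 * (max (p (P i + -z) ^ 2 - s i) 0) ^ 2)) := by
      unfold om
      show (∑ i, c i * ((max (p (P i + (z + k)) ^ 2 - s i) 0) ^ 2 + (max (p (P i - (z + k)) ^ 2 - s i) 0) ^ 2))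
        + (∑ i, c i * ((max (p (P i + (z - k)) ^ 2 - s i) 0) ^ 2 + (max (p (P i - (z - k)) ^ 2 - s i) 0) ^ 2))
        - 2 * (∑ i, c i * ((max (p (P i + z) ^ 2 - s i) 0) ^ 2 + (max (p (P i - z) ^ 2 - s i) 0) ^ 2)) = _
      rw [Finset.mul_sum, ← Finset.sum_add_distrib, ← Finset.sum_sub_distrib]
      refine Finset.sum_congr rfl fun i _ => ?_
      have a1 : P i + (z + k) = (P i + z) + k := by abel
      have a2 : P i - (z + k) = (P i + -z) - k := by abel
      have a3 : P i + (z - k) = (P i + z) - k := by abel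
      have a4 : P i - (z - k) = (P i + -z) + k := by abel
      have a5 : P i - z = P i + -z := by abel
      rw [a1, a2, a3, a4, a5]
      ring
    rw [e0, Finset.sum_mul]
    refine Finset.sum_le_sum fun i _ => ?_
    have h1 := tg_oneW p b hb (fun x => (hp x).2) (P i + z) k (s i) (L i) (W ‖k‖) (hsL i) (hb1 i).1 hk
      (hW0 _ (norm_nonneg k)) (hT i z hb1 k)
    have h2 := tg_oneW p b hb (fun x => (hp x).2) (P i + -z) k (s i) (L i) (W ‖k‖) (hsL i) (hb2 i).1 hk
      (hW0 _ (norm_nonneg k)) (hT i (-z) hb2 k)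
    have h3 := mul_le_mul_of_nonneg_left (add_le_add h1 h2) (hc i).le
    refine h3.trans ?_
    have hLs : 0 ≤ L i - s i := by have := hsL i; linarith
    have hWk := hW0 _ (norm_nonneg k)
    have hq : 0 ≤ (b * (2 * Real.sqrt (L i) + b)) ^ 2 := sq_nonneg _
    rw [mul_assoc (c i)]
    apply mul_le_mul_of_nonneg_left _ (hc i).le
    have k1 : 0 ≤ (L i - s i) * ‖k‖ ^ 2 := by positivity
    have k2 : 0 ≤ (b * (2 * Real.sqrt (L i) + b)) ^ 2 * W ‖k‖ := mul_nonneg hq hWk
    nlinarith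

theorem sf_aux1V {X : Type u} [NormedAddCommGroup X] [NormedSpace ℝ X]
    (g : X → ℝ) (hconv : ConvexOn ℝ Set.univ g)
    (V : ℝ → ℝ) (hV0 : ∀ t, 0 ≤ t → 0 ≤ V t) (hVm : ∀ s t, 0 ≤ s → s ≤ t → V s ≤ V t)
    (w : X) (hT : ∀ k, ‖k‖ ≤ 1 → om g w k ≤ V ‖k‖)
    (a b : ℝ) (hb : 0 ≤ b) (hba : b ≤ a) (hab : a + b = 1) (d : X) (hd : ‖d‖ ≤ 1) :
    a * g (w + b • d) + b * g (w - a • d) ≤ g w + V ‖d‖ := by
  have ha : 0 < a := by linarith
  have ha1 : a ≤ 1 := by linarith
  have h1 : g (w + b • d) ≤ (b / a) * g (w + a • d) + (1 - b / a) * g w := by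
    have hc := hconv.2 (Set.mem_univ (w + a • d)) (Set.mem_univ w)
      (show 0 ≤ b / a by positivity) (show 0 ≤ 1 - b / a by
        rw [sub_nonneg, div_le_one ha]; exact hba) (by ring)
    have e : (b / a) • (w + a • d) + (1 - b / a) • w = w + b • d := by
      rw [smul_add, smul_smul, div_mul_cancel₀ _ ha.ne', sub_smul, one_smul]
      abel
    rw [e] at hc
    simpa [smul_eq_mul] using hc
  have h2 : a * g (w + b • d) ≤ b * g (w + a • d) + (a - b) * g w := by
    have := mul_le_mul_of_nonneg_left h1 ha.le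
    have e : a * ((b / a) * g (w + a • d) + (1 - b / a) * g w) =
        b * g (w + a • d) + (a - b) * g w := by
      field_simp
    linarith
  have hn : ‖a • d‖ = a * ‖d‖ := by rw [norm_smul, Real.norm_of_nonneg ha.le]
  have hn1 : ‖a • d‖ ≤ ‖d‖ := by
    rw [hn]; exact mul_le_of_le_one_left (norm_nonneg _) ha1
  have h3 := hT (a • d) (hn1.trans hd)
  have h4 : V ‖a • d‖ ≤ V ‖d‖ := hVm _ _ (norm_nonneg _) hn1
  have hVd := hV0 _ (norm_nonneg d)
  unfold om at h3
  have h5 : b * (g (w + a • d) + g (w - a • d)) ≤ b * (2 * g w + V ‖d‖) :=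
    mul_le_mul_of_nonneg_left (by linarith) hb
  have h6 : b * (V ‖d‖) ≤ V ‖d‖ :=
    mul_le_of_le_one_left hVd (by linarith)
  have h7 : a - b + 2 * b = 1 := by linarith
  have h8 : (a - b + 2 * b) * g w = g w := by rw [h7, one_mul]
  have h9 : b * (2 * g w + V ‖d‖) = 2 * b * g w + b * (V ‖d‖) := by ring
  have h10 : b * (g (w + a • d) + g (w - a • d)) = b * g (w + a • d) + b * g (w - a • d) := by ring
  have h11 : (a - b + 2 * b) * g w = (a - b) * g w + 2 * b * g w := by ring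
  linarith

theorem sf_aux2V {X : Type u} [NormedAddCommGroup X] [NormedSpace ℝ X]
    (g : X → ℝ) (hconv : ConvexOn ℝ Set.univ g)
    (V : ℝ → ℝ) (hV0 : ∀ t, 0 ≤ t → 0 ≤ V t) (hVm : ∀ s t, 0 ≤ s → s ≤ t → V s ≤ V t)
    (w : X) (hT : ∀ k, ‖k‖ ≤ 1 → om g w k ≤ V ‖k‖)
    (a b : ℝ) (ha : 0 ≤ a) (hb : 0 ≤ b) (hab : a + b = 1) (d : X) (hd : ‖d‖ ≤ 1) :
    a * g (w + b • d) + b * g (w - a • d) ≤ g w + V ‖d‖ := by
  rcases le_total b a with h | h
  · exact sf_aux1V g hconv V hV0 hVm w hT a b hb h hab d hd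
  · have := sf_aux1V g hconv V hV0 hVm w hT b a ha h (by linarith) (-d) (by rwa [norm_neg])
    rw [smul_neg, smul_neg, norm_neg, sub_neg_eq_add, ← sub_eq_add_neg] at this
    linarith


theorem smooth_of_functionV {X : Type u} [NormedAddCommGroup X] [NormedSpace ℝ X]
    (g : X → ℝ) (hconv : ConvexOn ℝ Set.univ g) (hcont : Continuous g) (h0 : g 0 = 0)
    (heven : ∀ x, g (-x) = g x) (R : ℝ) (hbdd : ∀ x, g x ≤ 1 / 2 → ‖x‖ ≤ R)
    (V : ℝ → ℝ) (hV0 : ∀ t, 0 ≤ t → 0 ≤ V t) (hVm : ∀ s t, 0 ≤ s → s ≤ t → V s ≤ V t)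
    (hT : ∀ z, g z ≤ 1 / 2 → ∀ k, ‖k‖ ≤ 1 → om g z k ≤ V ‖k‖) :
    ∃ p : Seminorm ℝ X, (∃ a b : ℝ, 0 < a ∧ 0 < b ∧ ∀ x : X, a * ‖x‖ ≤ p x ∧ p x ≤ b * ‖x‖) ∧
      ∃ Q : ℝ, 1 ≤ Q ∧ ∀ x h : X, p x = 1 → p h ≤ 1 / (12 * Q) →
        p (x + h) + p (x - h) ≤ 2 + 6 * V (12 * Q * p h) := by
  set B : Set X := {x | g x ≤ 1 / 2} with hB
  set Q : ℝ := max R 1 with hQ
  have hQ1 : 1 ≤ Q := le_max_right _ _
  have hQpos : 0 < Q := by linarith
  have hBclosed : IsClosed B := isClosed_le hcont continuous_const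
  have hBconv : Convex ℝ B := by
    have := hconv.convex_le (1/2)
    simpa [hB] using this
  have hBopen : IsOpen {x | g x < 1 / 2} := isOpen_lt hcont continuous_const
  have hB0 : B ∈ 𝓝 (0 : X) := by
    apply Filter.mem_of_superset (hBopen.mem_nhds (show g 0 < 1 / 2 by rw [h0]; norm_num))
    intro x hx
    have hx' : g x < 1 / 2 := hx
    exact hx'.le
  have hBabs : Absorbent ℝ B := absorbent_nhds_zero hB0
  have hscale : ∀ (t : ℝ) (x : X), 0 ≤ t → t ≤ 1 → g (t • x) ≤ t * g x := by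
    intro t x ht0 ht1
    have hc := hconv.2 (Set.mem_univ x) (Set.mem_univ (0 : X)) ht0 (show 0 ≤ 1 - t by linarith)
      (by ring)
    simpa [h0, smul_eq_mul] using hc
  have hBbal : Balanced ℝ B := by
    rw [balanced_iff_smul_mem]
    intro a ha x hx
    have ha' : |a| ≤ 1 := ha
    have h1 : g (a • x) = g (|a| • x) := by
      rcases abs_choice a with h | h
      · rw [h]
      · rw [h, neg_smul, heven]
    have hx' : g x ≤ 1 / 2 := hx
    show g (a • x) ≤ 1 / 2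
    rw [h1]
    have h2 := hscale |a| x (abs_nonneg a) ha'
    have h3 : |a| * g x ≤ |a| * (1/2) := mul_le_mul_of_nonneg_left hx' (abs_nonneg a)
    linarith
  set p : Seminorm ℝ X := gaugeSeminorm hBbal hBconv hBabs with hp
  have hpdef : ∀ x, p x = gauge B x := fun x => rfl
  obtain ⟨r, hr, hrB⟩ := Metric.mem_nhds_iff.1 hB0
  have hub : ∀ x, p x ≤ r⁻¹ * ‖x‖ := by
    intro x
    have := mul_gauge_le_norm (x := x) hrB
    rw [hpdef, inv_mul_eq_div, le_div_iff₀ hr, mul_comm]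
    exact this
  have hlb : ∀ x, ‖x‖ ≤ Q * p x := by
    intro x
    have hsub : B ⊆ Metric.closedBall 0 Q := by
      intro y hy
      rw [mem_closedBall_zero_iff]
      exact (hbdd y hy).trans (le_max_left _ _)
    have := le_gauge_of_subset_closedBall (x := x) hBabs hQpos.le hsub
    rw [hpdef]
    rw [div_le_iff₀ hQpos] at this
    linarith
  have hone : ∀ x, p x = 1 → g x = 1 / 2 := by
    intro x hx
    apply le_antisymm
    · have h1 : gauge B x ≤ 1 := hx.le
      rw [gauge_le_one_iff_mem_closure hBconv hB0, hBclosed.closure_eq] at h1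
      exact h1
    · by_contra hcon
      push Not at hcon
      have h1 : x ∈ interior B := by
        rw [mem_interior]
        exact ⟨{x | g x < 1 / 2}, fun y hy => (show g y < 1 / 2 from hy).le, hBopen, hcon⟩
      rw [← gauge_lt_one_iff_mem_interior hBconv hB0] at h1
      rw [hpdef] at hx
      linarith
  refine ⟨p, ⟨Q⁻¹, r⁻¹, by positivity, by positivity, fun x => ⟨?_, hub x⟩⟩, Q, hQ1, ?_⟩
  · rw [inv_mul_le_iff₀ hQpos]; exact hlb x
  intro z h hz hsmall
  have hη0 : 0 ≤ p h := apply_nonneg p h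
  have hVph : 0 ≤ V (12 * Q * p h) := hV0 _ (by positivity)
  · have hη12 : p h ≤ 1 / 12 := by
      refine hsmall.trans ?_
      apply one_div_le_one_div_of_le (by norm_num)
      linarith
    set A := p (z + h) with hA
    set C := p (z - h) with hC
    have hA1 : A ≤ 1 + p h := by rw [← hz]; exact map_add_le_add p z h
    have hC1 : C ≤ 1 + p h := by rw [← hz]; exact map_sub_le_add p z h
    have hA2 : 1 - p h ≤ A := by
      have := map_sub_le_add p (z + h) h
      rw [add_sub_cancel_right, hz] at this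
      linarith
    have hC2 : 1 - p h ≤ C := by
      have := map_add_le_add p (z - h) h
      rw [sub_add_cancel, hz] at this
      linarith
    have hApos : 0 < A := by linarith
    have hCpos : 0 < C := by linarith
    by_cases hAC : A + C ≤ 2
    · linarith
    push Not at hAC
    set u := A⁻¹ • (z + h) with hu
    set v := C⁻¹ • (z - h) with hv
    have hpu : p u = 1 := by
      rw [hu, map_smul_eq_mul, Real.norm_of_nonneg (by positivity)]
      exact inv_mul_cancel₀ hApos.ne'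
    have hpv : p v = 1 := by
      rw [hv, map_smul_eq_mul, Real.norm_of_nonneg (by positivity)]
      exact inv_mul_cancel₀ hCpos.ne'
    have hgu := hone u hpu
    have hgv := hone v hpv
    have hgz := hone z hz
    set s := (A + C) / 2 with hs
    have hs1 : 1 < s := by rw [hs]; linarith
    have hspos : 0 < s := by linarith
    set w := s⁻¹ • z with hw
    have hgw : g w ≤ s⁻¹ * (1/2) := by
      have := hscale s⁻¹ z (by positivity) (inv_le_one_of_one_le₀ hs1.le)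
      rw [hgz] at this
      exact this
    have hsinv : s⁻¹ ≤ 1 := inv_le_one_of_one_le₀ hs1.le
    have hwB : g w ≤ 1 / 2 := by nlinarith
    have hAC0 : A + C ≠ 0 := by linarith
    set a := A / (A + C) with ha
    set c := C / (A + C) with hc
    have hac : a + c = 1 := by rw [ha, hc, ← add_div, div_self hAC0]
    have ha0 : 0 ≤ a := by positivity
    have hc0 : 0 ≤ c := by positivity
    have hau : a • u = (A + C)⁻¹ • (z + h) := by
      rw [hu, smul_smul, ha]
      congr 1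
      field_simp
    have hcv : c • v = (A + C)⁻¹ • (z - h) := by
      rw [hv, smul_smul, hc]
      congr 1
      field_simp
    have hwe : w = a • u + c • v := by
      rw [hau, hcv, ← smul_add, hw, hs]
      have : z + h + (z - h) = (2:ℝ) • z := by rw [two_smul]; abel
      rw [this, smul_smul]
      congr 1
      field_simp
    have hwu : w + c • (u - v) = u := by
      rw [hwe, smul_sub]
      have : a • u + c • v + (c • u - c • v) = (a + c) • u := by rw [add_smul]; abel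
      rw [this, hac, one_smul]
    have hwv : w - a • (u - v) = v := by
      rw [hwe, smul_sub]
      have : a • u + c • v - (a • u - a • v) = (a + c) • v := by rw [add_smul]; abel
      rw [this, hac, one_smul]
    have hzQ : ‖z‖ ≤ Q := by have := hlb z; rw [hz, mul_one] at this; exact this
    have hhQ : ‖h‖ ≤ Q * p h := hlb h
    have hAinv : A⁻¹ ≤ 2 := by
      rw [inv_le_comm₀ hApos (by norm_num)]
      linarith
    have hCinv : C⁻¹ ≤ 2 := by
      rw [inv_le_comm₀ hCpos (by norm_num)]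
      linarith
    have huv : ‖u - v‖ ≤ 12 * Q * p h := by
      have e : u - v = (A⁻¹ - C⁻¹) • z + (A⁻¹ + C⁻¹) • h := by
        rw [hu, hv, smul_add, smul_sub, sub_smul, add_smul]; abel
      have h1 : |A⁻¹ - C⁻¹| ≤ 8 * p h := by
        have e2 : A⁻¹ - C⁻¹ = (C - A) * (A⁻¹ * C⁻¹) := by field_simp
        rw [e2, abs_mul, abs_of_pos (show 0 < A⁻¹ * C⁻¹ by positivity)]
        have h2 : |C - A| ≤ 2 * p h := by rw [abs_le]; constructor <;> linarith
        have h3 : A⁻¹ * C⁻¹ ≤ 2 * 2 := mul_le_mul hAinv hCinv (by positivity) (by norm_num)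
        calc |C - A| * (A⁻¹ * C⁻¹) ≤ (2 * p h) * (2 * 2) :=
              mul_le_mul h2 h3 (by positivity) (by positivity)
          _ = 8 * p h := by ring
      have h4 : |A⁻¹ + C⁻¹| ≤ 4 := by
        rw [abs_of_pos (by positivity)]; linarith
      rw [e]
      refine (norm_add_le _ _).trans ?_
      rw [norm_smul, norm_smul, Real.norm_eq_abs, Real.norm_eq_abs]
      have h5 : |A⁻¹ - C⁻¹| * ‖z‖ ≤ (8 * p h) * Q :=
        mul_le_mul h1 hzQ (norm_nonneg _) (by positivity)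
      have h6 : |A⁻¹ + C⁻¹| * ‖h‖ ≤ 4 * (Q * p h) :=
        mul_le_mul h4 hhQ (norm_nonneg _) (by norm_num)
      linarith
    have huv1 : ‖u - v‖ ≤ 1 := by
      refine huv.trans ?_
      rw [le_div_iff₀ (by positivity)] at hsmall
      linarith
    have hkey := sf_aux2V g hconv V hV0 hVm w (hT w hwB) a c ha0 hc0 hac (u - v) huv1
    rw [hwu, hwv, hgu, hgv] at hkey
    have hk2 : 1/2 ≤ s⁻¹ * (1/2) + V ‖u - v‖ := by
      have : a * (1/2) + c * (1/2) = 1/2 := by rw [← add_mul, hac, one_mul]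
      linarith
    have hk3 : V ‖u - v‖ ≤ V (12 * Q * p h) := hVm _ _ (norm_nonneg _) huv
    have hk4 : s * (1/2) ≤ 1/2 + s * V (12 * Q * p h) := by
      have h1 : 1/2 ≤ s⁻¹ * (1/2) + V (12 * Q * p h) := by linarith
      have h2 := mul_le_mul_of_nonneg_left h1 hspos.le
      rw [mul_add, ← mul_assoc s s⁻¹, mul_inv_cancel₀ hspos.ne', one_mul] at h2
      exact h2
    have hs2 : s ≤ 3/2 := by rw [hs]; linarith
    have hk5 : s * V (12 * Q * p h) ≤ 3/2 * V (12 * Q * p h) :=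
      mul_le_mul_of_nonneg_right hs2 hVph
    have e2 : A + C = 2 * s := by rw [hs]; ring
    rw [e2]
    linarith

end Pool.Agent.Y537.PM
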