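import Pool.Agent.Results.MP_b4da01_an.SuperreflexiveYes

set_option autoImplicit false

/-!
# Uniformly smooth renormings pass to finitely representable spaces and give reflexivity
-/

open Filter Topology

namespace Pool.Agent.Y537.PM

open Pool.Agent.Results.MP_b4da01_an.SuperreflexiveYes

universe u v

/-- `p` is equivalent to the given norm. -/
def EquivNorm {X : Type u} [NormedAddCommGroup X] [NormedSpace ℝ X] (p : Seminorm ℝ X) : Prop :=
  ∃ a b : ℝ, 0 < a ∧ 0 < b ∧ ∀ x : X, a * ‖x‖ ≤ p x ∧ p x ≤ b * ‖x‖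

/-- `p` is uniformly smooth: `p (x + h) + p (x - h) ≤ 2 + ε p h` for all `x` with `p x = 1` and
all small `h`. -/
def UniformlySmooth {X : Type u} [NormedAddCommGroup X] [NormedSpace ℝ X] (p : Seminorm ℝ X) :
    Prop :=
  ∀ ε : ℝ, 0 < ε → ∃ δ : ℝ, 0 < δ ∧ ∀ x h : X, p x = 1 → p h ≤ δ →
    p (x + h) + p (x - h) ≤ 2 + ε * p h

/-- `X` has an equivalent uniformly smooth norm. -/
def USRenormable (X : Type u) [NormedAddCommGroup X] [NormedSpace ℝ X] : Prop :=
  ∃ p : Seminorm ℝ X, EquivNorm p ∧ UniformlySmooth p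

theorem us_homog {X : Type u} [NormedAddCommGroup X] [NormedSpace ℝ X] (p : Seminorm ℝ X)
    {ε δ : ℝ} (hε : 0 < ε)
    (h : ∀ x h : X, p x = 1 → p h ≤ δ → p (x + h) + p (x - h) ≤ 2 + ε * p h)
    (x k : X) (hx : 0 < p x) (hk : p k ≤ δ * p x) :
    p (x + k) + p (x - k) ≤ 2 * p x + ε * p k := by
  have hn : ‖(p x)⁻¹‖ = (p x)⁻¹ := by
    rw [Real.norm_eq_abs, abs_of_pos (inv_pos.2 hx)]
  have h1 : p ((p x)⁻¹ • x) = 1 := by
    rw [map_smul_eq_mul, hn, inv_mul_cancel₀ hx.ne']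
  have h0 : p ((p x)⁻¹ • k) ≤ δ := by
    rw [map_smul_eq_mul, hn, inv_mul_eq_div, div_le_iff₀ hx]
    exact hk
  have h2 := h ((p x)⁻¹ • x) ((p x)⁻¹ • k) h1 h0
  rw [← smul_add, ← smul_sub, map_smul_eq_mul, map_smul_eq_mul, map_smul_eq_mul, hn] at h2
  have h3 := mul_le_mul_of_nonneg_left h2 hx.le
  have e1 : p x * ((p x)⁻¹ * p (x + k) + (p x)⁻¹ * p (x - k)) = p (x + k) + p (x - k) := by
    field_simp
  have e2 : p x * (2 + ε * ((p x)⁻¹ * p k)) = 2 * p x + ε * p k := by
    field_simp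
  rw [e1, e2] at h3
  exact h3

theorem us_of_finitelyRepresentable {X : Type u} [NormedAddCommGroup X] [NormedSpace ℝ X]
    (hX : USRenormable X) {Y : Type v} [NormedAddCommGroup Y] [NormedSpace ℝ Y]
    (hY : FinitelyRepresentable Y X) : USRenormable Y := by
  classical
  obtain ⟨p, ⟨a, b, ha, hb, hab⟩, hus⟩ := hX
  have hT : ∀ s : Finset Y, ∃ T : Submodule.span ℝ (s : Set Y) →ₗ[ℝ] X,
      ∀ y, ‖y‖ ≤ ‖T y‖ ∧ ‖T y‖ ≤ (1 + 1) * ‖y‖ := fun s =>
    hY _ (FiniteDimensional.span_finset ℝ s) 1 one_pos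
  choose T hT using hT
  let f : Y → Finset Y → ℝ := fun y s =>
    if h : y ∈ Submodule.span ℝ (s : Set Y) then p (T s ⟨y, h⟩) else 0
  let U : Ultrafilter (Finset Y) := Ultrafilter.of atTop
  have hU : (U : Filter (Finset Y)) ≤ atTop := Ultrafilter.of_le _
  have hmem : ∀ y : Y, ∀ᶠ s : Finset Y in (U : Filter (Finset Y)), y ∈ Submodule.span ℝ (s : Set Y) := by
    intro y
    refine hU ?_
    filter_upwards [eventually_ge_atTop ({y} : Finset Y)] with s hs
    exact Submodule.subset_span (hs (Finset.mem_singleton_self y))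
  have hfb : ∀ y s, f y s ∈ Set.Icc 0 (b * (2 * ‖y‖)) := by
    intro y s
    by_cases h : y ∈ Submodule.span ℝ (s : Set Y)
    · have e : f y s = p (T s ⟨y, h⟩) := dif_pos h
      rw [e]
      refine ⟨apply_nonneg _ _, (hab _).2.trans ?_⟩
      have := (hT s ⟨y, h⟩).2
      have h2 : ‖(⟨y, h⟩ : Submodule.span ℝ (s : Set Y))‖ = ‖y‖ := rfl
      rw [h2] at this
      apply mul_le_mul_of_nonneg_left _ hb.le
      linarith
    · have e : f y s = 0 := dif_neg h
      rw [e]
      exact ⟨le_rfl, by positivity⟩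
  have hlim : ∀ y, ∃ L : ℝ, Tendsto (f y) (U : Filter (Finset Y)) (𝓝 L) := by
    intro y
    obtain ⟨L, _, hL⟩ := isCompact_Icc.ultrafilter_le_nhds (U.map (f y))
      (by
        rw [le_principal_iff]
        show f y ⁻¹' Set.Icc 0 (b * (2 * ‖y‖)) ∈ (U : Filter (Finset Y))
        exact Filter.univ_mem' (hfb y))
    exact ⟨L, hL⟩
  choose q hq using hlim
  have hadd : ∀ x y, q (x + y) ≤ q x + q y := by
    intro x y
    refine le_of_tendsto_of_tendsto (hq (x + y)) ((hq x).add (hq y)) ?_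
    filter_upwards [hmem x, hmem y] with s hx hy
    have hxy := Submodule.add_mem _ hx hy
    show f (x + y) s ≤ f x s + f y s
    rw [show f (x + y) s = p (T s ⟨x + y, hxy⟩) from dif_pos hxy,
      show f x s = p (T s ⟨x, hx⟩) from dif_pos hx, show f y s = p (T s ⟨y, hy⟩) from dif_pos hy]
    have : (⟨x + y, hxy⟩ : Submodule.span ℝ (s : Set Y)) = ⟨x, hx⟩ + ⟨y, hy⟩ := rfl
    rw [this, map_add]
    exact map_add_le_add p _ _
  have hsmul : ∀ (c : ℝ) (x : Y), q (c • x) = ‖c‖ * q x := by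
    intro c x
    refine tendsto_nhds_unique (hq (c • x)) ?_
    refine Tendsto.congr' ?_ ((hq x).const_mul ‖c‖)
    filter_upwards [hmem x] with s hx
    have hcx := Submodule.smul_mem _ c hx
    rw [show f (c • x) s = p (T s ⟨c • x, hcx⟩) from dif_pos hcx,
      show f x s = p (T s ⟨x, hx⟩) from dif_pos hx]
    have : (⟨c • x, hcx⟩ : Submodule.span ℝ (s : Set Y)) = c • ⟨x, hx⟩ := rfl
    rw [this, map_smul, map_smul_eq_mul]
  refine ⟨Seminorm.of q hadd hsmul, ⟨a, b * 2, ha, by positivity, ?_⟩, ?_⟩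
  · intro x
    constructor
    · refine ge_of_tendsto (hq x) ?_
      filter_upwards [hmem x] with s hx
      rw [show f x s = p (T s ⟨x, hx⟩) from dif_pos hx]
      refine le_trans ?_ (hab _).1
      exact mul_le_mul_of_nonneg_left (hT s ⟨x, hx⟩).1 ha.le
    · refine le_of_tendsto (hq x) (Filter.Eventually.of_forall fun s => ?_)
      rw [mul_assoc]
      exact (hfb x s).2
  · intro ε hε
    obtain ⟨δ, hδ, hsm⟩ := hus ε hε
    refine ⟨δ / 2, by positivity, ?_⟩
    intro x h hx1 hh1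
    have hx1' : q x = 1 := hx1
    have hh1' : q h ≤ δ / 2 := hh1
    show q (x + h) + q (x - h) ≤ 2 + ε * q h
    have key : q (x + h) + q (x - h) ≤ 2 * q x + ε * q h := by
      refine le_of_tendsto_of_tendsto ((hq (x + h)).add (hq (x - h)))
        (((hq x).const_mul 2).add ((hq h).const_mul ε)) ?_
      have hev1 : ∀ᶠ s in (U : Filter (Finset Y)), 0 < f x s :=
        (hq x).eventually_const_lt (by rw [hx1']; norm_num)
      have hev2 : ∀ᶠ s in (U : Filter (Finset Y)), f h s < δ * f x s := by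
        have := (hq h).sub ((hq x).const_mul δ)
        have h3 : ∀ᶠ s in (U : Filter (Finset Y)), f h s - δ * f x s < 0 :=
          this.eventually_lt_const (by rw [hx1']; linarith)
        filter_upwards [h3] with s hs
        linarith
      filter_upwards [hmem x, hmem h, hev1, hev2] with s hx hh he1 he2
      have hxh := Submodule.add_mem _ hx hh
      have hxh' := Submodule.sub_mem _ hx hh
      rw [show f x s = p (T s ⟨x, hx⟩) from dif_pos hx] at he1 he2
      rw [show f h s = p (T s ⟨h, hh⟩) from dif_pos hh] at he2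
      show f (x + h) s + f (x - h) s ≤ 2 * f x s + ε * f h s
      rw [show f (x + h) s = p (T s ⟨x + h, hxh⟩) from dif_pos hxh,
        show f (x - h) s = p (T s ⟨x - h, hxh'⟩) from dif_pos hxh',
        show f x s = p (T s ⟨x, hx⟩) from dif_pos hx, show f h s = p (T s ⟨h, hh⟩) from dif_pos hh]
      have e1 : (⟨x + h, hxh⟩ : Submodule.span ℝ (s : Set Y)) = ⟨x, hx⟩ + ⟨h, hh⟩ := rfl
      have e2 : (⟨x - h, hxh'⟩ : Submodule.span ℝ (s : Set Y)) = ⟨x, hx⟩ - ⟨h, hh⟩ := rfl
      rw [e1, e2, map_add, map_sub]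
      exact us_homog p hε hsm _ _ he1 he2.le
    rw [hx1'] at key
    linarith

theorem core_reflexiveS {Z : Type u} [NormedAddCommGroup Z] [NormedSpace ℝ Z] [CompleteSpace Z]
    (t : ℝ) (htpos : 0 < t)
    (hs : ∀ x h : Z, ‖x‖ = 1 → ‖h‖ = t → ‖x + h‖ + ‖x - h‖ ≤ 2 + t / 4) :
    Reflexive Z := by
  unfold Pool.Agent.Results.MP_b4da01_an.SuperreflexiveYes.Reflexive
  by_contra hns
  set δ : ℝ := min (1/8) (t / 32) with hδ
  have hδpos : 0 < δ := lt_min (by norm_num) (by positivity)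
  have hδ1 : δ ≤ 1/8 := min_le_left _ _
  have hδ2 : δ ≤ t / 32 := min_le_right _ _
  set θ : ℝ := 1 - δ with hθ
  have hθ0 : 0 < θ := by rw [hθ]; linarith
  have hθ1 : θ < 1 := by rw [hθ]; linarith
  have hθ2 : 1 - 2 * δ ≤ θ ^ 2 := by rw [hθ]; nlinarith
  have hθθ : θ ^ 2 < θ := by nlinarith
  let J := NormedSpace.inclusionInDoubleDual ℝ Z
  have hJn : ∀ z, ‖J z‖ = ‖z‖ := fun z => (NormedSpace.inclusionInDoubleDualLi ℝ).norm_map z
  have hJa : ∀ (z : Z) (f : StrongDual ℝ Z), J z f = f z := fun z f => NormedSpace.dual_def ℝ Z z f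
  -- the range is closed
  let R : Subspace ℝ (StrongDual ℝ (StrongDual ℝ Z)) := J.toLinearMap.range
  have hRc : IsClosed (R : Set (StrongDual ℝ (StrongDual ℝ Z))) := by
    have h1 : IsClosed (Set.range (NormedSpace.inclusionInDoubleDualLi (E := Z) ℝ)) :=
      (NormedSpace.inclusionInDoubleDualLi (E := Z) ℝ).isometry.isUniformInducing.isComplete_range.isClosed
    have h2 : (R : Set (StrongDual ℝ (StrongDual ℝ Z))) =
        Set.range (NormedSpace.inclusionInDoubleDualLi (E := Z) ℝ) := by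
      ext x
      constructor
      · rintro ⟨z, rfl⟩
        exact ⟨z, rfl⟩
      · rintro ⟨z, rfl⟩
        exact ⟨z, rfl⟩
    rw [h2]; exact h1
  have hRne : ∃ x, x ∉ R := by
    by_contra hcon
    push Not at hcon
    apply hns
    intro x
    obtain ⟨z, hz⟩ := hcon x
    exact ⟨z, hz⟩
  obtain ⟨Ψ, hΨ1, hΨd'⟩ := riesz_norm (V := StrongDual ℝ (StrongDual ℝ Z)) R hRc hRne θ hθ1
  have hΨd : ∀ z, θ ≤ ‖Ψ - J z‖ := fun z => hΨd' _ ⟨z, rfl⟩
  -- f1
  obtain ⟨f1, hf1n, hf1⟩ := exists_unit_lt Ψ θ hθ0.le (by rw [hΨ1]; exact hθ1)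
  obtain ⟨x1, hx1n, hx1⟩ := exists_unit_lt f1 θ hθ0.le (by rw [hf1n]; exact hθ1)
  have hx1pos : 0 < f1 x1 := hθ0.trans hx1
  -- f2
  obtain ⟨f2, hf2n', hf2x0, hf2'⟩ := restrict_norm Ψ (J x1) θ f1 (by rw [hJa]; exact hx1pos)
    (fun c => by
      have := hΨd (c • x1)
      rwa [map_smul] at this) (θ ^ 2) (by positivity) hθθ
  have hf2x : f2 x1 = 0 := by rw [← hJa]; exact hf2x0
  -- the sum
  have hsum : 2 * θ ^ 2 < ‖f1 + f2‖ := by
    have h1 : Ψ (f1 + f2) ≤ ‖f1 + f2‖ := by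
      have := Ψ.le_opNorm (f1 + f2)
      rw [hΨ1, one_mul] at this
      exact (le_abs_self _).trans this
    rw [map_add] at h1
    linarith
  obtain ⟨x, hxn, hx⟩ := exists_unit_lt (f1 + f2) (2 * θ ^ 2) (by positivity) hsum
  have hmain := hs x (t • x1) hxn
    (by rw [norm_smul, Real.norm_of_nonneg htpos.le, hx1n, mul_one])
  have hb1 : f1 (x + t • x1) ≤ ‖x + t • x1‖ := by
    have := f1.le_opNorm (x + t • x1)
    rw [hf1n, one_mul] at this
    exact (le_abs_self _).trans this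
  have hb2 : f2 (x - t • x1) ≤ ‖x - t • x1‖ := by
    have := f2.le_opNorm (x - t • x1)
    rw [hf2n', one_mul] at this
    exact (le_abs_self _).trans this
  rw [map_add, map_smul, smul_eq_mul] at hb1
  rw [map_sub, map_smul, smul_eq_mul, hf2x, mul_zero, sub_zero] at hb2
  rw [ContinuousLinearMap.add_apply] at hx
  have h5 : t * θ < t * f1 x1 := mul_lt_mul_of_pos_left hx1 htpos
  have h6 : t * θ ≥ t * (7/8) := mul_le_mul_of_nonneg_left (by rw [hθ]; linarith) htpos.le
  linarith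

theorem reflexive_of_us {Y : Type v} [NormedAddCommGroup Y] [NormedSpace ℝ Y]
    [CompleteSpace Y] (hY : USRenormable Y) : Reflexive Y := by
  obtain ⟨p, ⟨a, b, ha, hb, hab⟩, hus⟩ := hY
  obtain ⟨δ, hδ, hs⟩ := hus (1 / 4) (by norm_num)
  let N : AddGroupNorm (PN Y p) :=
    { toFun := fun x => p (show Y from x)
      map_zero' := map_zero p
      add_le' := fun x y => map_add_le_add p _ _
      neg' := fun x => map_neg_eq_map p _
      eq_zero_of_map_eq_zero' := fun x hx => by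
        have h1 := (hab (show Y from x)).1
        have h2 : p (show Y from x) = 0 := hx
        rw [h2] at h1
        have h3 : ‖(show Y from x)‖ = 0 := by
          have := norm_nonneg (show Y from x)
          nlinarith
        exact norm_eq_zero.1 h3 }
  letI i1 : NormedAddCommGroup (PN Y p) := N.toNormedAddCommGroup
  have hnorm : ∀ x : PN Y p, ‖x‖ = p (show Y from x) := fun x => rfl
  letI i2 : NormedSpace ℝ (PN Y p) :=
    { norm_smul_le := fun r x => (map_smul_eq_mul p r (show Y from x)).le }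
  let e0 : Y ≃ₗ[ℝ] PN Y p := LinearEquiv.refl ℝ Y
  let e : Y ≃L[ℝ] PN Y p := e0.toContinuousLinearEquivOfBounds b a⁻¹
    (fun y => (hab y).2) (fun y => by
      have h1 := (hab (show Y from y)).1
      rw [inv_mul_eq_div, le_div_iff₀ ha, mul_comm]
      exact h1)
  haveI : CompleteSpace (PN Y p) := by
    rw [← completeSpace_congr (e := e.toEquiv) e.isUniformEmbedding]
    infer_instance
  apply Reflexive.of_equiv e
  apply core_reflexiveS δ hδ
  intro x h hx hh
  have hh' : p (show Y from h) = δ := hh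
  have h1 := hs _ _ hx hh'.le
  rw [hh'] at h1
  have h2 : ‖x + h‖ + ‖x - h‖ ≤ 2 + 1 / 4 * δ := h1
  linarith

end Pool.Agent.Y537.PM
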