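import Pool.Agent.Y537.PM.Core
import Pool.Agent.Y537.PM.Fun
import Pool.Agent.Y537.PM.US

set_option autoImplicit false

/-!
# Pointwise moduli of smoothness: assembly
-/

open Filter Topology

namespace Pool.Agent.Y537.PM

open Pool.Agent.Results.MP_b4da01_an.SuperreflexiveYes

universe u v

variable {X : Type u} [NormedAddCommGroup X] [NormedSpace ℝ X]

theorem cont_p (p : Seminorm ℝ X) (b : ℝ) (hb : 0 < b) (hp : ∀ x : X, p x ≤ b * ‖x‖) :
    Continuous (fun y : X => p y) := tg_cont p b hb hp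

/-- Baire: bounds for the second differences which are uniform with respect to the direction. -/
theorem uniform_of_lines [CompleteSpace X] (p : Seminorm ℝ X) (b : ℝ) (hb : 0 < b)
    (hp : ∀ x : X, p x ≤ b * ‖x‖) (x : X) (ω : ℕ → ℝ → ℝ)
    (hx : ∀ h : X, ∃ n : ℕ, ∀ᶠ t in 𝓝[>] (0 : ℝ), om (fun y => p y) x (t • h) ≤ ω n t) :
    ∃ (n : ℕ) (r δ : ℝ), 0 < r ∧ 0 < δ ∧ ∀ k : X, ‖k‖ < r → ∀ t : ℝ, 0 < t → t < δ →
      om (fun y => p y) x (t • k) ≤ ω n t := by
  have hpc := cont_p p b hb hp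
  have hWc : Continuous (fun k : X => om (fun y => p y) x k) := by
    unfold om
    have a1 : Continuous (fun k : X => p (x + k)) := hpc.comp (by fun_prop)
    have a2 : Continuous (fun k : X => p (x - k)) := hpc.comp (by fun_prop)
    exact (a1.add a2).sub continuous_const
  let A : ℕ × ℕ → Set X := fun q => {k | ∀ t : ℝ, 0 < t → t < 1 / ((q.2 : ℝ) + 1) →
    om (fun y => p y) x (t • k) ≤ ω q.1 t}
  have hA : ∀ q, IsClosed (A q) := by
    intro q
    have : A q = ⋂ t : ℝ, ⋂ _ : 0 < t, ⋂ _ : t < 1 / ((q.2 : ℝ) + 1),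
        {k | om (fun y => p y) x (t • k) ≤ ω q.1 t} := by
      ext k
      simp [A]
    rw [this]
    apply isClosed_iInter
    intro t
    apply isClosed_iInter
    intro _
    apply isClosed_iInter
    intro _
    exact isClosed_le (hWc.comp (by fun_prop)) continuous_const
  have hU : ⋃ q, A q = Set.univ := by
    rw [Set.eq_univ_iff_forall]
    intro k
    obtain ⟨n, hn⟩ := hx k
    obtain ⟨t1, ht1, hball⟩ := mem_nhdsGT_iff_exists_Ioo_subset.mp hn
    have ht1' : (0 : ℝ) < t1 := ht1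
    obtain ⟨m, hm⟩ := exists_nat_one_div_lt ht1'
    rw [Set.mem_iUnion]
    exact ⟨(n, m), fun t ht htm => hball ⟨ht, htm.trans hm⟩⟩
  obtain ⟨q, k0, hk0⟩ := nonempty_interior_of_iUnion_of_closed hA hU
  rw [mem_interior_iff_mem_nhds, Metric.mem_nhds_iff] at hk0
  obtain ⟨r, hr, hball⟩ := hk0
  refine ⟨q.1, r, 1 / ((q.2 : ℝ) + 1), hr, by positivity, ?_⟩
  intro k hk t ht htm
  have m1 : k0 + k ∈ A q := hball (by rw [mem_ball_iff_norm, add_sub_cancel_left]; exact hk)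
  have m2 : k0 - k ∈ A q := hball (by
    rw [mem_ball_iff_norm, sub_sub_cancel_left, norm_neg]; exact hk)
  have m1' := m1 t ht htm
  have m2' := m2 t ht htm
  rw [← tgj_om_neg] at m2'
  have e : t • k = (1 / 2 : ℝ) • (t • (k0 + k) + -(t • (k0 - k))) := by module
  rw [e]
  refine (tgj_om_mid p x _ _).trans ?_
  linarith

/-- The level of a point. -/
theorem level_of_lines [CompleteSpace X] (p : Seminorm ℝ X) (b : ℝ) (hb : 0 < b)
    (hp : ∀ x : X, p x ≤ b * ‖x‖) {e : ℕ → ℝ → ℝ} (he : Nice e) (x : X)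
    (hx : ∀ h : X, ∃ n : ℕ, ∀ᶠ t in 𝓝[>] (0 : ℝ), om (fun y => p y) x (t • h) ≤ t * e n t) :
    ∃ T : ℕ, ¬ BadM e (fun y => p y ^ 2) T x := by
  obtain ⟨n, r, δ, hr, hδ, hu⟩ := uniform_of_lines p b hb hp x (fun n t => t * e n t) hx
  have hph : ∀ h, p h ^ 2 ≤ b ^ 2 * ‖h‖ ^ 2 := fun h => by
    rw [← mul_pow]; exact pow_le_pow_left₀ (apply_nonneg p h) (hp h) 2
  have hpx : 0 ≤ p x := apply_nonneg p x
  set η : ℝ := r / 2 * δ with hη
  have hηpos : 0 < η := by positivity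
  obtain ⟨T, hT⟩ := exists_nat_ge (2 * b ^ 2 + 4 * p x * b / η + 4 * p x / r + 2 / r + (n + 1))
  have q1 : 0 ≤ 4 * p x * b / η := by positivity
  have q2 : 0 ≤ 4 * p x / r := by positivity
  have q3 : 0 ≤ 2 / r := by positivity
  have q4 : (0 : ℝ) ≤ n := Nat.cast_nonneg n
  have q5 : 0 ≤ b ^ 2 := by positivity
  refine ⟨T, ?_⟩
  rintro ⟨k, hk⟩
  have h1 := om_sq_le p x k
  have hkn : 0 ≤ ‖k‖ := norm_nonneg k
  have hS0 := sum_nonneg' he T (t := T * ‖k‖) (by positivity)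
  have hk' : T * ‖k‖ ^ 2 + T * (‖k‖ * ∑ n ∈ Finset.range T, e n (T * ‖k‖)) <
      om (fun y => p y ^ 2) x k := by
    have : Om e T ‖k‖ = T * ‖k‖ ^ 2 + T * (‖k‖ * ∑ n ∈ Finset.range T, e n (T * ‖k‖)) := by
      unfold Om; ring
    rw [← this]; exact hk
  by_cases hsmall : ‖k‖ < η
  · rcases hkn.eq_or_lt with h0 | h0
    · have hk0 : k = 0 := norm_eq_zero.1 h0.symm
      subst hk0
      simp only [norm_zero] at hk'
      unfold om at hk'
      simp only [add_zero, sub_zero] at hk'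
      ring_nf at hk'
      exact lt_irrefl _ hk'
    · have h2 := hu ((r / (2 * ‖k‖)) • k) (by
        rw [norm_smul, Real.norm_eq_abs, abs_of_pos (by positivity)]
        have : r / (2 * ‖k‖) * ‖k‖ = r / 2 := by field_simp
        rw [this]
        linarith) (2 * ‖k‖ / r) (by positivity) (by
          rw [div_lt_iff₀ hr]
          rw [hη] at hsmall
          linarith)
      rw [smul_smul] at h2
      have e1 : 2 * ‖k‖ / r * (r / (2 * ‖k‖)) = 1 := by field_simp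
      rw [e1, one_smul] at h2
      have h3 : e n (2 * ‖k‖ / r) ≤ ∑ n ∈ Finset.range T, e n (T * ‖k‖) := by
        have hnT : n < T := by
          have : (n : ℝ) < T := by linarith
          exact_mod_cast this
        have h4 : e n (2 * ‖k‖ / r) ≤ e n (T * ‖k‖) := by
          apply he.mono _ _ _ (by positivity)
          have : 2 * ‖k‖ / r = 2 / r * ‖k‖ := by ring
          rw [this]
          exact mul_le_mul_of_nonneg_right (by linarith) hkn
        exact h4.trans (Finset.single_le_sum (f := fun n => e n (T * ‖k‖))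
          (fun i _ => he.nonneg i _ (by positivity)) (Finset.mem_range.2 hnT))
      have h5 : 2 * p x * om (fun y => p y) x k ≤
          T * (‖k‖ * ∑ n ∈ Finset.range T, e n (T * ‖k‖)) := by
        have he0 : 0 ≤ e n (2 * ‖k‖ / r) := he.nonneg _ _ (by positivity)
        calc 2 * p x * om (fun y => p y) x k
            ≤ 2 * p x * (2 * ‖k‖ / r * e n (2 * ‖k‖ / r)) :=
              mul_le_mul_of_nonneg_left h2 (by positivity)
          _ = 4 * p x / r * (‖k‖ * e n (2 * ‖k‖ / r)) := by ring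
          _ ≤ T * (‖k‖ * e n (2 * ‖k‖ / r)) :=
              mul_le_mul_of_nonneg_right (by linarith) (by positivity)
          _ ≤ _ := by gcongr
      have h6 : 2 * b ^ 2 * ‖k‖ ^ 2 ≤ T * ‖k‖ ^ 2 :=
        mul_le_mul_of_nonneg_right (by linarith) (by positivity)
      have := hph k
      linarith
  · push Not at hsmall
    have h2 := tgj_om_le p x k
    have h3 : om (fun y => p y) x k ≤ 2 * b / η * ‖k‖ ^ 2 := by
      calc om (fun y => p y) x k ≤ 2 * p k := h2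
        _ ≤ 2 * (b * ‖k‖) := by linarith [hp k]
        _ ≤ 2 * (b * ‖k‖) * (‖k‖ / η) := by
            apply le_mul_of_one_le_right (by positivity)
            rwa [one_le_div hηpos]
        _ = _ := by ring
    have h5 : 2 * p x * om (fun y => p y) x k ≤ 4 * p x * b / η * ‖k‖ ^ 2 := by
      calc 2 * p x * om (fun y => p y) x k ≤ 2 * p x * (2 * b / η * ‖k‖ ^ 2) :=
            mul_le_mul_of_nonneg_left h3 (by positivity)
        _ = _ := by ring
    have h6 : (2 * b ^ 2 + 4 * p x * b / η) * ‖k‖ ^ 2 ≤ T * ‖k‖ ^ 2 :=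
      mul_le_mul_of_nonneg_right (by linarith) (by positivity)
    have h7 : 0 ≤ T * (‖k‖ * ∑ n ∈ Finset.range T, e n (T * ‖k‖)) := by positivity
    have := hph k
    linarith

theorem level_zero (p : Seminorm ℝ X) (b : ℝ) (hp : ∀ x : X, p x ≤ b * ‖x‖) {e : ℕ → ℝ → ℝ}
    (he : Nice e) : ∃ T : ℕ, ¬ BadM e (fun y => p y ^ 2) T (0 : X) := by
  obtain ⟨T, hT⟩ := exists_nat_ge (2 * b ^ 2)
  refine ⟨T, ?_⟩
  rintro ⟨k, hk⟩
  have h1 := om_sq_le p 0 k
  simp only [map_zero, mul_zero, zero_mul, add_zero] at h1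
  have hph : p k ^ 2 ≤ b ^ 2 * ‖k‖ ^ 2 := by
    rw [← mul_pow]; exact pow_le_pow_left₀ (apply_nonneg p k) (hp k) 2
  have hS0 := sum_nonneg' he T (t := T * ‖k‖) (by positivity)
  have h2 : T * ‖k‖ ^ 2 ≤ Om e T ‖k‖ := by
    unfold Om
    apply mul_le_mul_of_nonneg_left _ (Nat.cast_nonneg T)
    have : 0 ≤ ‖k‖ * ∑ n ∈ Finset.range T, e n (T * ‖k‖) := by positivity
    linarith
  have h3 : 2 * b ^ 2 * ‖k‖ ^ 2 ≤ T * ‖k‖ ^ 2 :=
    mul_le_mul_of_nonneg_right hT (by positivity)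
  linarith

theorem sq_le_Om {e : ℕ → ℝ → ℝ} (he : Nice e) (M : ℕ) {t : ℝ} (ht : 0 ≤ t) :
    M * t ^ 2 ≤ Om e M t := by
  unfold Om
  have hS0 := sum_nonneg' he M (t := M * t) (by positivity)
  apply mul_le_mul_of_nonneg_left _ (Nat.cast_nonneg M)
  have : 0 ≤ t * ∑ n ∈ Finset.range M, e n (M * t) := by positivity
  linarith

/-- **Main theorem**, for nice moduli. -/
theorem exists_norm [CompleteSpace X] (hc : ¬ ContainsC0 X) {e : ℕ → ℝ → ℝ} (he : Nice e)
    (p : Seminorm ℝ X) (hpe : EquivNorm p)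
    (hx : ∀ x : X, x ≠ 0 → ∀ h : X, ∃ n : ℕ, ∀ᶠ t in 𝓝[>] (0 : ℝ),
      om (fun y => p y) x (t • h) ≤ t * e n t) :
    ∃ q : Seminorm ℝ X, EquivNorm q ∧ ∃ T : ℕ, 1 ≤ T ∧ ∀ x h : X, q x = 1 →
      q (x + h) + q (x - h) ≤ 2 + Om e T (q h) := by
  obtain ⟨a, b, ha, hb, hp⟩ := hpe
  have hcont : Continuous (fun x => p x ^ 2) := (tg_cont p b hb fun x => (hp x).2).pow 2
  have hconv : ConvexOn ℝ Set.univ (fun x => p x ^ 2) :=
    ⟨convex_univ, fun x _ y _ a b ha hb hab => by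
      simpa [smul_eq_mul] using tg_convF p x y a b ha hb hab⟩
  have hfin : ∀ x, ∃ T, ¬ BadM e (fun x => p x ^ 2) T x := by
    intro x
    by_cases h0 : x = 0
    · subst h0
      exact level_zero p b (fun x => (hp x).2) he
    · exact level_of_lines p b hb (fun x => (hp x).2) he x (hx x h0)
  obtain ⟨n, s, hs⟩ := core he hconv hcont hfin (1 / a) (fun x hx => by
    have h1 : p x < 1 := by
      by_contra h
      push Not at h
      have : (1 : ℝ) ≤ p x ^ 2 := one_le_pow₀ h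
      linarith
    rw [le_div_iff₀ ha]
    linarith [(hp x).1]) (by simp) (fun h C hC ε => cauchy_of_bounded_signs hc h C hC ε)
  choose T hT using hs
  obtain ⟨T0, hT0⟩ : ∃ T0 : ℕ, ∀ i, T i ≤ T0 :=
    ⟨∑ i, T i, fun i => Finset.single_le_sum (f := T) (fun _ _ => Nat.zero_le _)
      (Finset.mem_univ i)⟩
  obtain ⟨g, g1, g2, g3, g4, ⟨R, g5⟩, ⟨C, hC, g6⟩⟩ := exists_function_of_tameW p a b ha hb hp
    s.P s.L s.hL (Om e T0) (fun t ht => Om_nonneg he T0 ht) (fun i z hz k => by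
      have h1 := hT i z hz
      unfold BadM at h1
      push Not at h1
      exact (h1 k).trans (Om_mono_left he (hT0 i) (norm_nonneg k)))
  -- the modulus of `g`
  set T1 : ℕ := (2 * ⌈C⌉₊ + 1) * 1 ^ 2 * (T0 + 1) with hT1
  have g7 : ∀ z, g z ≤ 1 / 2 → ∀ k, ‖k‖ ≤ 1 → om g z k ≤ Om e T1 ‖k‖ := by
    intro z hz k hk
    refine (g6 z hz k hk).trans ?_
    have h1 := Om_scale he (T0 + 1) 1 (2 * ⌈C⌉₊ + 1) le_rfl (by omega) (norm_nonneg k)
    rw [Nat.cast_one, one_mul] at h1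
    refine le_trans ?_ h1
    have h2 : Om e T0 ‖k‖ ≤ Om e (T0 + 1) ‖k‖ := Om_mono_left he (Nat.le_succ _) (norm_nonneg k)
    have h3 : ‖k‖ ^ 2 ≤ Om e (T0 + 1) ‖k‖ := by
      refine le_trans ?_ (sq_le_Om he (T0 + 1) (norm_nonneg k))
      apply le_mul_of_one_le_left (by positivity)
      push_cast
      linarith [(Nat.cast_nonneg T0 : (0 : ℝ) ≤ T0)]
    have h4 : C ≤ ⌈C⌉₊ := Nat.le_ceil C
    have h5 := Om_nonneg he (T0 + 1) (norm_nonneg k)
    push_cast
    calc C * (Om e T0 ‖k‖ + ‖k‖ ^ 2) ≤ ⌈C⌉₊ * (2 * Om e (T0 + 1) ‖k‖) := by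
          apply mul_le_mul h4 (by linarith) _ (Nat.cast_nonneg _)
          have := Om_nonneg he T0 (norm_nonneg k)
          positivity
      _ ≤ _ := by nlinarith
  obtain ⟨q, hq, Q, hQ, hqs⟩ := smooth_of_functionV g g1 g2 g3 g4 R g5 (Om e T1)
    (fun t ht => Om_nonneg he T1 ht) (fun s t hs hst => Om_mono_right he T1 hs hst) g7
  set c : ℕ := ⌈12 * Q⌉₊ with hcdef
  have hcQ : 12 * Q ≤ c := Nat.le_ceil _
  have hc1 : 1 ≤ c := by
    have : (1 : ℝ) ≤ c := by linarith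
    exact_mod_cast this
  set T2 : ℕ := 6 * c ^ 2 * T1 + 2 * c with hT2
  refine ⟨q, hq, T2, by omega, ?_⟩
  intro x h hx1
  have hqh : 0 ≤ q h := apply_nonneg q h
  by_cases hsm : q h ≤ 1 / (12 * Q)
  · refine (hqs x h hx1 hsm).trans ?_
    have h1 := Om_scale he T1 c 6 hc1 (by norm_num) hqh
    have h2 : Om e T1 (12 * Q * q h) ≤ Om e T1 (c * q h) :=
      Om_mono_right he T1 (by positivity) (mul_le_mul_of_nonneg_right hcQ hqh)
    have h3 : Om e (6 * c ^ 2 * T1) (q h) ≤ Om e T2 (q h) := Om_mono_left he (by omega) hqh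
    push_cast at h1
    linarith
  · push Not at hsm
    have h1 : q (x + h) ≤ 1 + q h := by rw [← hx1]; exact map_add_le_add q x h
    have h2 : q (x - h) ≤ 1 + q h := by rw [← hx1]; exact map_sub_le_add q x h
    have h3 : 1 ≤ 12 * Q * q h := by
      rw [div_lt_iff₀ (by positivity)] at hsm
      linarith
    have h4 : 1 ≤ c * q h := h3.trans (mul_le_mul_of_nonneg_right hcQ hqh)
    have h5 := sq_le_Om he T2 hqh
    have h6 : (2 * c : ℝ) * q h ^ 2 ≤ T2 * q h ^ 2 := by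
      apply mul_le_mul_of_nonneg_right _ (by positivity)
      rw [hT2]
      push_cast
      have : (0 : ℝ) ≤ 6 * (c : ℝ) ^ 2 * T1 := by positivity
      linarith
    have h7 : 2 * q h ≤ 2 * c * q h ^ 2 := by nlinarith
    linarith

/-- The modulus is `o(t)`. -/
theorem Om_small {e : ℕ → ℝ → ℝ} (he0 : ∀ n, Tendsto (e n) (𝓝[>] 0) (𝓝 0)) (T : ℕ)
    (hT : 1 ≤ T) {ε : ℝ} (hε : 0 < ε) :
    ∃ δ : ℝ, 0 < δ ∧ ∀ t, 0 ≤ t → t ≤ δ → Om e T t ≤ ε * t := by
  have hT0 : (0 : ℝ) < T := by exact_mod_cast hT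
  have h1 : Tendsto (fun t : ℝ => (T : ℝ) * t) (𝓝[>] 0) (𝓝[>] 0) := by
    rw [tendsto_nhdsWithin_iff]
    constructor
    · have : Tendsto (fun t : ℝ => (T : ℝ) * t) (𝓝 0) (𝓝 (T * 0)) :=
        (continuous_const.mul continuous_id).tendsto 0
      rw [mul_zero] at this
      exact this.mono_left nhdsWithin_le_nhds
    · filter_upwards [self_mem_nhdsWithin] with t ht
      exact mul_pos hT0 ht
  have h2 : Tendsto (fun t : ℝ => (T : ℝ) * (t + ∑ n ∈ Finset.range T, e n (T * t))) (𝓝[>] 0)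
      (𝓝 (T * (0 + ∑ n ∈ Finset.range T, 0))) := by
    refine Tendsto.const_mul _ (Tendsto.add ?_ ?_)
    · exact (tendsto_id (α := ℝ)).mono_left nhdsWithin_le_nhds
    · exact tendsto_finsetSum _ fun n _ => (he0 n).comp h1
  simp only [Finset.sum_const_zero, add_zero, mul_zero] at h2
  have h3 : ∀ᶠ t : ℝ in 𝓝[>] 0, (T : ℝ) * (t + ∑ n ∈ Finset.range T, e n (T * t)) < ε :=
    h2.eventually_lt_const hε
  obtain ⟨t1, ht1, hball⟩ := mem_nhdsGT_iff_exists_Ioo_subset.mp h3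
  have ht1' : (0 : ℝ) < t1 := ht1
  refine ⟨t1 / 2, by positivity, fun t ht htl => ?_⟩
  rcases ht.eq_or_lt with h0 | h0
  · rw [← h0]; unfold Om; simp
  · have h4 : (T : ℝ) * (t + ∑ n ∈ Finset.range T, e n (T * t)) < ε :=
      hball ⟨h0, by linarith⟩
    have h5 := mul_le_mul_of_nonneg_right h4.le ht
    refine le_trans (le_of_eq ?_) h5
    unfold Om
    ring

/-- Majorants. -/
theorem exists_majorant (w : ℝ → ℝ) (hw : Tendsto (fun t => w t / t) (𝓝[>] 0) (𝓝 0)) :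
    ∃ e : ℝ → ℝ, (∀ t, 0 ≤ e t) ∧ Monotone e ∧ Tendsto e (𝓝[>] 0) (𝓝 0) ∧
      ∀ᶠ t in 𝓝[>] (0 : ℝ), w t ≤ t * e t := by
  have h1 : ∀ᶠ t : ℝ in 𝓝[>] 0, |w t / t| < 1 := by
    have := hw.abs
    rw [abs_zero] at this
    exact this.eventually_lt_const one_pos
  obtain ⟨d, hd, hball⟩ := mem_nhdsGT_iff_exists_Ioo_subset.mp h1
  have hd' : (0 : ℝ) < d := hd
  let S : ℝ → Set ℝ := fun t => insert 0 ((fun s => |w s / s|) '' {s | 0 < s ∧ s ≤ t ∧ s < d})
  have hbd : ∀ t, BddAbove (S t) := by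
    intro t
    refine ⟨1, ?_⟩
    rintro y (rfl | ⟨s, ⟨hs1, hs2, hs3⟩, rfl⟩)
    · exact zero_le_one
    · exact (le_of_lt (hball ⟨hs1, hs3⟩) : |w s / s| ≤ 1)
  have hne : ∀ t, (S t).Nonempty := fun t => ⟨0, Set.mem_insert _ _⟩
  refine ⟨fun t => sSup (S t), fun t => le_csSup (hbd t) (Set.mem_insert _ _), ?_, ?_, ?_⟩
  · intro s t hst
    apply csSup_le_csSup (hbd t) (hne s)
    apply Set.insert_subset_insert
    apply Set.image_mono
    rintro u ⟨h1, h2, h3⟩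
    exact ⟨h1, h2.trans hst, h3⟩
  · rw [Metric.tendsto_nhdsWithin_nhds]
    intro ε hε
    have h2 : ∀ᶠ t : ℝ in 𝓝[>] 0, |w t / t| < ε / 2 := by
      have := hw.abs
      rw [abs_zero] at this
      exact this.eventually_lt_const (by positivity)
    obtain ⟨t1, ht1, hball1⟩ := mem_nhdsGT_iff_exists_Ioo_subset.mp h2
    refine ⟨t1, ht1, fun {t} ht htd => ?_⟩
    have ht' : (0 : ℝ) < t := ht
    rw [Real.dist_eq, sub_zero] at htd ⊢
    rw [abs_of_pos ht'] at htd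
    rw [abs_of_nonneg (le_csSup (hbd t) (Set.mem_insert _ _))]
    refine lt_of_le_of_lt ?_ (half_lt_self hε)
    apply csSup_le (hne t)
    rintro y (rfl | ⟨s, ⟨hs1, hs2, hs3⟩, rfl⟩)
    · positivity
    · exact (le_of_lt (hball1 ⟨hs1, lt_of_le_of_lt hs2 htd⟩) : |w s / s| ≤ ε / 2)
  · filter_upwards [Ioo_mem_nhdsGT hd'] with t ht
    have h2 : |w t / t| ≤ sSup (S t) :=
      le_csSup (hbd t) (Set.mem_insert_of_mem _ ⟨t, ⟨ht.1, le_rfl, ht.2⟩, rfl⟩)
    have h3 : w t / t ≤ sSup (S t) := (le_abs_self _).trans h2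
    rw [div_le_iff₀ ht.1] at h3
    linarith

/-- Uniformly smooth renorming. -/
theorem us_of_moduli [CompleteSpace X] (hc : ¬ ContainsC0 X) (ω : ℕ → ℝ → ℝ)
    (hω : ∀ n, Tendsto (fun t => ω n t / t) (𝓝[>] 0) (𝓝 0)) (p : Seminorm ℝ X)
    (hpe : EquivNorm p)
    (hx : ∀ x : X, x ≠ 0 → ∀ h : X, ∃ n : ℕ, ∀ᶠ t in 𝓝[>] (0 : ℝ),
      p (x + t • h) + p (x - t • h) - 2 * p x ≤ ω n t) : USRenormable X := by
  choose e e1 e2 e3 e4 using fun n => exists_majorant (ω n) (hω n)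
  have he : Nice e := ⟨fun n t _ => e1 n t, fun n s t _ hst => e2 n hst⟩
  obtain ⟨q, hq, T, hT, hs⟩ := exists_norm hc he p hpe (fun x h0 h => by
    obtain ⟨n, hn⟩ := hx x h0 h
    refine ⟨n, ?_⟩
    filter_upwards [hn, e4 n] with t h1 h2
    exact le_trans h1 h2)
  refine ⟨q, hq, fun ε hε => ?_⟩
  obtain ⟨δ, hδ, h1⟩ := Om_small e3 T hT hε
  refine ⟨δ, hδ, fun x h hx1 hh => (hs x h hx1).trans ?_⟩
  have := h1 (q h) (apply_nonneg q h) hh
  linarith

theorem superReflexive_of_us (hX : USRenormable X) : SuperReflexive.{u, v} X := by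
  intro Y _ _ _ hY
  exact reflexive_of_us (us_of_finitelyRepresentable hX hY)

end Pool.Agent.Y537.PM
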