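import Pool.Agent.Y537.PM.Conv

set_option autoImplicit false

/-!
# Pointwise moduli of smoothness: power types and converses
-/

open Filter Topology

namespace Pool.Agent.Y537.PM

open Pool.Agent.Results.MP_b4da01_an.SuperreflexiveYes

universe u v

variable {X : Type u} [NormedAddCommGroup X] [NormedSpace ℝ X]

/-- `w t = O(t ^ s)`, one-sided. -/
def Pow (s : ℝ) (w : ℝ → ℝ) : Prop :=
  ∃ K d : ℝ, 0 ≤ K ∧ 0 < d ∧ ∀ t, 0 ≤ t → t ≤ d → w t ≤ K * t ^ s

theorem Pow.dil {s : ℝ} {w : ℝ → ℝ} (h : Pow s w) {a : ℝ} (ha : 0 < a) :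
    Pow s (fun t => w (a * t)) := by
  obtain ⟨K, d, hK, hd, hw⟩ := h
  refine ⟨K * a ^ s, d / a, by positivity, by positivity, fun t ht htd => ?_⟩
  have h1 := hw (a * t) (by positivity) (by rw [le_div_iff₀ ha] at htd; linarith)
  rw [Real.mul_rpow ha.le ht] at h1
  linarith

theorem Pow.const_mul {s : ℝ} {w : ℝ → ℝ} (h : Pow s w) {b : ℝ} (hb : 0 ≤ b) :
    Pow s (fun t => b * w t) := by
  obtain ⟨K, d, hK, hd, hw⟩ := h
  refine ⟨b * K, d, by positivity, hd, fun t ht htd => ?_⟩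
  have h1 := mul_le_mul_of_nonneg_left (hw t ht htd) hb
  linarith

theorem Pow.zero (s : ℝ) : Pow s (fun _ => 0) :=
  ⟨0, 1, le_rfl, one_pos, fun t _ _ => by simp⟩

theorem Pow.add {s : ℝ} {w w' : ℝ → ℝ} (h : Pow s w) (h' : Pow s w') :
    Pow s (fun t => w t + w' t) := by
  obtain ⟨K, d, hK, hd, hw⟩ := h
  obtain ⟨K', d', hK', hd', hw'⟩ := h'
  refine ⟨K + K', min d d', by positivity, lt_min hd hd', fun t ht htd => ?_⟩
  have h1 := hw t ht (htd.trans (min_le_left _ _))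
  have h2 := hw' t ht (htd.trans (min_le_right _ _))
  linarith

theorem Pow.sum {s : ℝ} {w : ℕ → ℝ → ℝ} (N : ℕ) (h : ∀ n < N, Pow s (w n)) :
    Pow s (fun t => ∑ n ∈ Finset.range N, w n t) := by
  induction N with
  | zero => simpa using Pow.zero s
  | succ N ih =>
    simp only [Finset.sum_range_succ]
    exact (ih fun n hn => h n (by omega)).add (h N (by omega))

theorem Pow.mono {s s' : ℝ} {w : ℝ → ℝ} (h : Pow s w) (hs : s' ≤ s) (hs' : 0 < s') :
    Pow s' w := by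
  obtain ⟨K, d, hK, hd, hw⟩ := h
  refine ⟨K, min d 1, hK, lt_min hd one_pos, fun t ht htd => ?_⟩
  refine (hw t ht (htd.trans (min_le_left _ _))).trans ?_
  apply mul_le_mul_of_nonneg_left _ hK
  rcases ht.eq_or_lt with h0 | h0
  · rw [← h0, Real.zero_rpow hs'.ne', Real.zero_rpow (by linarith)]
  · exact Real.rpow_le_rpow_of_exponent_ge h0 (htd.trans (min_le_right _ _)) hs

theorem pow_cum {s : ℝ} {e : ℕ → ℝ → ℝ} (N : ℕ) (h : ∀ n < N, Pow s (e n)) : Pow s (cum e N) := by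
  rcases Nat.eq_zero_or_pos N with h0 | h0
  · subst h0
    have : cum e 0 = fun _ => 0 := by ext t; simp [cum]
    rw [this]; exact Pow.zero s
  · have hN : (0 : ℝ) < N := by exact_mod_cast h0
    exact (Pow.sum N fun n hn => (h n hn).dil hN).const_mul hN.le

/-- Power type `r` modulus of smoothness. -/
def PowerType (r : ℝ) (q : Seminorm ℝ X) : Prop :=
  ∃ K : ℝ, ∀ x h : X, q x = 1 → q (x + h) + q (x - h) ≤ 2 + K * q h ^ r

theorem powerType_of_Om {e : ℕ → ℝ → ℝ} {T : ℕ} (hT : 1 ≤ T) {s : ℝ} (hs0 : 0 < s)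
    (hs1 : s ≤ 1) (he : ∀ n < T, Pow s (e n)) (q : Seminorm ℝ X)
    (hq : ∀ x h : X, q x = 1 → q (x + h) + q (x - h) ≤ 2 + Om e T (q h)) :
    PowerType (1 + s) q := by
  have hT0 : (0 : ℝ) < T := by exact_mod_cast hT
  obtain ⟨K, d, hK, hd, hw⟩ := Pow.sum T fun n hn => (he n hn).dil hT0
  set d1 : ℝ := min d 1 with hd1
  have hd1pos : 0 < d1 := lt_min hd one_pos
  refine ⟨T * (1 + K) + 2 / d1 ^ s, fun x h hx => ?_⟩
  have hqh : 0 ≤ q h := apply_nonneg q h
  have hpow : (q h) ^ (1 + s) = q h * (q h) ^ s := by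
    rw [Real.rpow_add_of_nonneg hqh zero_le_one hs0.le, Real.rpow_one]
  have hd1s : 0 < d1 ^ s := by positivity
  have hqs : 0 ≤ (q h) ^ s := by positivity
  by_cases hsm : q h ≤ d1
  · refine (hq x h hx).trans ?_
    have h1 := hw (q h) hqh (hsm.trans (min_le_left _ _))
    have h2 : q h ≤ (q h) ^ s := by
      rcases hqh.eq_or_lt with h0 | h0
      · rw [← h0, Real.zero_rpow hs0.ne']
      · have := Real.rpow_le_rpow_of_exponent_ge h0 (hsm.trans (min_le_right _ _)) hs1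
        rwa [Real.rpow_one] at this
    have h3 : Om e T (q h) ≤ T * (1 + K) * (q h * (q h) ^ s) := by
      unfold Om
      rw [mul_assoc]
      apply mul_le_mul_of_nonneg_left _ hT0.le
      have h4 : q h ^ 2 ≤ q h * (q h) ^ s := by
        rw [pow_two]; exact mul_le_mul_of_nonneg_left h2 hqh
      have h5 : q h * ∑ n ∈ Finset.range T, e n (T * q h) ≤ q h * (K * (q h) ^ s) :=
        mul_le_mul_of_nonneg_left h1 hqh
      nlinarith
    rw [hpow]
    have h6 : 0 ≤ 2 / d1 ^ s * (q h * (q h) ^ s) := by positivity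
    linarith
  · push Not at hsm
    have h1 : q (x + h) ≤ 1 + q h := by rw [← hx]; exact map_add_le_add q x h
    have h2 : q (x - h) ≤ 1 + q h := by rw [← hx]; exact map_sub_le_add q x h
    have h3 : d1 ^ s ≤ (q h) ^ s := Real.rpow_le_rpow hd1pos.le hsm.le hs0.le
    have h4 : 1 ≤ (q h) ^ s / d1 ^ s := by rwa [one_le_div hd1s]
    have h5 : 2 * q h ≤ 2 / d1 ^ s * (q h * (q h) ^ s) := by
      calc 2 * q h ≤ 2 * q h * ((q h) ^ s / d1 ^ s) := le_mul_of_one_le_right (by positivity) h4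
        _ = _ := by ring
    rw [hpow]
    have h6 : 0 ≤ T * (1 + K) * (q h * (q h) ^ s) := by positivity
    linarith

theorem powerType_us (q : Seminorm ℝ X) {r : ℝ} (hr : 1 < r) (hq : PowerType r q) :
    UniformlySmooth q := by
  obtain ⟨K, hK⟩ := hq
  intro ε hε
  have hr1 : 0 < r - 1 := by linarith
  set δ : ℝ := (ε / (|K| + 1)) ^ (1 / (r - 1)) with hδ
  have hKp : 0 < |K| + 1 := by positivity
  have hδ0 : 0 < δ := by positivity
  refine ⟨δ, hδ0, fun x h hx hh => (hK x h hx).trans ?_⟩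
  have hqh : 0 ≤ q h := apply_nonneg q h
  have h1 : (q h) ^ r = q h * (q h) ^ (r - 1) := by
    have : r = 1 + (r - 1) := by ring
    nth_rewrite 1 [this]
    rw [Real.rpow_add_of_nonneg hqh zero_le_one hr1.le, Real.rpow_one]
  have h2 : (q h) ^ (r - 1) ≤ ε / (|K| + 1) := by
    calc (q h) ^ (r - 1) ≤ δ ^ (r - 1) := Real.rpow_le_rpow hqh hh hr1.le
      _ = ε / (|K| + 1) := by
        rw [hδ, ← Real.rpow_mul (by positivity), one_div_mul_cancel hr1.ne', Real.rpow_one]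
  have h3 : 0 ≤ (q h) ^ (r - 1) := by positivity
  have h4 : K * (q h) ^ (r - 1) ≤ ε := by
    calc K * (q h) ^ (r - 1) ≤ (|K| + 1) * (q h) ^ (r - 1) :=
          mul_le_mul_of_nonneg_right (by linarith [le_abs_self K]) h3
      _ ≤ (|K| + 1) * (ε / (|K| + 1)) := mul_le_mul_of_nonneg_left h2 hKp.le
      _ = ε := by field_simp
  rw [h1]
  have h5 : q h * (K * (q h) ^ (r - 1)) ≤ q h * ε := mul_le_mul_of_nonneg_left h4 hqh
  linarith

/-- A norm of power type is smooth of the same order at every point. -/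
theorem lines_of_powerType (q : Seminorm ℝ X) (hqe : EquivNorm q) {r : ℝ} (hq : PowerType r q)
    (x : X) (hx : x ≠ 0) (h : X) :
    ∃ K : ℝ, ∀ᶠ t in 𝓝[>] (0 : ℝ), q (x + t • h) + q (x - t • h) - 2 * q x ≤ K * t ^ r := by
  obtain ⟨K, hK⟩ := hq
  have hρ : 0 < q x := by
    obtain ⟨a, b, ha, hb, hab⟩ := hqe
    have h1 := (hab x).1
    have h2 : 0 < ‖x‖ := norm_pos_iff.2 hx
    have h3 : 0 < a * ‖x‖ := by positivity
    linarith
  refine ⟨q x * (K * (q h / q x) ^ r), ?_⟩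
  filter_upwards [self_mem_nhdsWithin] with t ht
  have ht' : (0 : ℝ) < t := ht
  have h1 := om_scale q x (t • h) (q x) hρ
  have hx1 : q ((q x)⁻¹ • x) = 1 := by
    rw [map_smul_eq_mul, Real.norm_of_nonneg (by positivity)]
    exact inv_mul_cancel₀ hρ.ne'
  have h2 := hK ((q x)⁻¹ • x) ((q x)⁻¹ • t • h) hx1
  have h3 : q ((q x)⁻¹ • t • h) = q h / q x * t := by
    rw [map_smul_eq_mul, map_smul_eq_mul, Real.norm_of_nonneg (by positivity),
      Real.norm_of_nonneg ht'.le]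
    ring
  have hqh : 0 ≤ q h := apply_nonneg q h
  rw [h3, Real.mul_rpow (by positivity) ht'.le] at h2
  have h4 : om (fun y => q y) ((q x)⁻¹ • x) ((q x)⁻¹ • t • h) ≤
      K * ((q h / q x) ^ r * t ^ r) := by
    unfold om
    beta_reduce
    rw [hx1]
    linarith
  have h5 : q (x + t • h) + q (x - t • h) - 2 * q x = om (fun y => q y) x (t • h) := rfl
  rw [h5, h1]
  have h6 := mul_le_mul_of_nonneg_left h4 hρ.le
  linarith

/-- A uniformly smooth norm is pointwise smooth with respect to countably many moduli. -/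
theorem moduli_of_us (q : Seminorm ℝ X) (hqe : EquivNorm q) (hq : UniformlySmooth q) :
    ∃ ω : ℕ → ℝ → ℝ, (∀ n, Tendsto (fun t => ω n t / t) (𝓝[>] 0) (𝓝 0)) ∧
      ∀ x : X, x ≠ 0 → ∀ h : X, ∃ n : ℕ, ∀ᶠ t in 𝓝[>] (0 : ℝ),
        q (x + t • h) + q (x - t • h) - 2 * q x ≤ ω n t := by
  let S : ℝ → Set ℝ := fun t => insert 0
    {s | ∃ x h : X, q x = 1 ∧ q h ≤ t ∧ s = q (x + h) + q (x - h) - 2}
  have hbd : ∀ t, 0 ≤ t → BddAbove (S t) := by
    intro t ht
    refine ⟨2 * t, ?_⟩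
    rintro y (rfl | ⟨x, h, hx, hh, rfl⟩)
    · positivity
    · have h1 : q (x + h) ≤ 1 + q h := by rw [← hx]; exact map_add_le_add q x h
      have h2 : q (x - h) ≤ 1 + q h := by rw [← hx]; exact map_sub_le_add q x h
      linarith
  have hne : ∀ t, (S t).Nonempty := fun t => ⟨0, Set.mem_insert _ _⟩
  have h0 : ∀ t, 0 ≤ t → 0 ≤ sSup (S t) := fun t ht => le_csSup (hbd t ht) (Set.mem_insert _ _)
  have hmono : ∀ s t, 0 ≤ s → s ≤ t → sSup (S s) ≤ sSup (S t) := by
    intro s t hs hst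
    apply csSup_le_csSup (hbd t (hs.trans hst)) (hne s)
    apply Set.insert_subset_insert
    rintro _ ⟨x, h, hx, hh, rfl⟩
    exact ⟨x, h, hx, hh.trans hst, rfl⟩
  have hlim : Tendsto (fun t => sSup (S t) / t) (𝓝[>] 0) (𝓝 0) := by
    rw [Metric.tendsto_nhdsWithin_nhds]
    intro ε hε
    obtain ⟨δ, hδ, hus⟩ := hq (ε / 2) (by positivity)
    refine ⟨δ, hδ, fun {t} ht htd => ?_⟩
    have ht' : (0 : ℝ) < t := ht
    rw [Real.dist_eq, sub_zero] at htd ⊢
    rw [abs_of_pos ht'] at htd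
    rw [abs_of_nonneg (div_nonneg (h0 t ht'.le) ht'.le), div_lt_iff₀ ht']
    have h1 : sSup (S t) ≤ ε / 2 * t := by
      apply csSup_le (hne t)
      rintro y (rfl | ⟨x, h, hx, hh, rfl⟩)
      · positivity
      · have h2 := hus x h hx (hh.trans htd.le)
        have h3 : ε / 2 * q h ≤ ε / 2 * t := mul_le_mul_of_nonneg_left hh (by positivity)
        linarith
    have : ε / 2 * t < ε * t := by nlinarith
    linarith
  refine ⟨fun n t => (n + 1) * sSup (S ((n + 1) * t)), ?_, ?_⟩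
  · intro n
    have hn : (0 : ℝ) < (n : ℝ) + 1 := by positivity
    have h1 := (hlim.comp (tendsto_mul_right ((n : ℝ) + 1) hn)).const_mul (((n : ℝ) + 1) ^ 2)
    rw [mul_zero] at h1
    refine h1.congr' ?_
    filter_upwards [self_mem_nhdsWithin] with t ht
    have ht' : (0 : ℝ) < t := ht
    simp only [Function.comp]
    field_simp
  · intro x hx h
    have hρ : 0 < q x := by
      obtain ⟨a, b, ha, hb, hab⟩ := hqe
      have h1 := (hab x).1
      have h2 : 0 < ‖x‖ := norm_pos_iff.2 hx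
      have h3 : 0 < a * ‖x‖ := by positivity
      linarith
    have hqh : 0 ≤ q h := apply_nonneg q h
    obtain ⟨n, hn⟩ := exists_nat_ge (q x + q h / q x)
    have hdiv : 0 ≤ q h / q x := by positivity
    refine ⟨n, ?_⟩
    filter_upwards [self_mem_nhdsWithin] with t ht
    have ht' : (0 : ℝ) < t := ht
    have h1 := om_scale q x (t • h) (q x) hρ
    have hx1 : q ((q x)⁻¹ • x) = 1 := by
      rw [map_smul_eq_mul, Real.norm_of_nonneg (by positivity)]
      exact inv_mul_cancel₀ hρ.ne'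
    have h3 : q ((q x)⁻¹ • t • h) ≤ ((n : ℝ) + 1) * t := by
      rw [map_smul_eq_mul, map_smul_eq_mul, Real.norm_of_nonneg (by positivity),
        Real.norm_of_nonneg ht'.le]
      calc (q x)⁻¹ * (t * q h) = q h / q x * t := by ring
        _ ≤ ((n : ℝ) + 1) * t := mul_le_mul_of_nonneg_right (by linarith) ht'.le
    have h4 : om (fun y => q y) ((q x)⁻¹ • x) ((q x)⁻¹ • t • h) ≤
        sSup (S (((n : ℝ) + 1) * t)) := by
      apply le_csSup (hbd _ (by positivity))
      refine Set.mem_insert_of_mem _ ⟨(q x)⁻¹ • x, (q x)⁻¹ • t • h, hx1, h3, ?_⟩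
      unfold om
      beta_reduce
      rw [hx1]
      ring
    have h5 : q (x + t • h) + q (x - t • h) - 2 * q x = om (fun y => q y) x (t • h) := rfl
    rw [h5, h1]
    have h6 : 0 ≤ sSup (S (((n : ℝ) + 1) * t)) := h0 _ (by positivity)
    calc q x * om (fun y => q y) ((q x)⁻¹ • x) ((q x)⁻¹ • t • h)
        ≤ q x * sSup (S (((n : ℝ) + 1) * t)) := mul_le_mul_of_nonneg_left h4 hρ.le
      _ ≤ ((n : ℝ) + 1) * sSup (S (((n : ℝ) + 1) * t)) :=
        mul_le_mul_of_nonneg_right (by linarith) h6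

/-- The square of a norm which is pointwise smooth with respect to countably many moduli. -/
theorem square_of_norm (p : Seminorm ℝ X) (ω : ℕ → ℝ → ℝ)
    (hω : ∀ n, Tendsto (fun t => ω n t / t) (𝓝[>] 0) (𝓝 0))
    (hx : ∀ x : X, x ≠ 0 → ∀ h : X, ∃ n : ℕ, ∀ᶠ t in 𝓝[>] (0 : ℝ),
      p (x + t • h) + p (x - t • h) - 2 * p x ≤ ω n t) :
    ∃ ω' : ℕ → ℝ → ℝ, (∀ n, Tendsto (fun t => ω' n t / t) (𝓝[>] 0) (𝓝 0)) ∧
      ∀ x h : X, ∃ n : ℕ, ∀ᶠ t in 𝓝[>] (0 : ℝ),
        p (x + t • h) ^ 2 + p (x - t • h) ^ 2 - 2 * p x ^ 2 ≤ ω' n t := by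
  refine ⟨fun N t => N * (t ^ 2 + ∑ n ∈ Finset.range N, |ω n t|), ?_, ?_⟩
  · intro N
    have h1 : Tendsto (fun t : ℝ => (N : ℝ) * (t + ∑ n ∈ Finset.range N, |ω n t / t|)) (𝓝[>] 0)
        (𝓝 (N * (0 + ∑ n ∈ Finset.range N, 0))) := by
      refine Tendsto.const_mul _ (Tendsto.add ?_ ?_)
      · exact (tendsto_id (α := ℝ)).mono_left nhdsWithin_le_nhds
      · refine tendsto_finsetSum _ fun n _ => ?_
        have := (hω n).abs
        rwa [abs_zero] at this
    simp only [Finset.sum_const_zero, add_zero, mul_zero] at h1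
    refine h1.congr' ?_
    filter_upwards [self_mem_nhdsWithin] with t ht
    have ht' : (0 : ℝ) < t := ht
    have h2 : ∀ n, |ω n t / t| = |ω n t| / t := fun n => by rw [abs_div, abs_of_pos ht']
    simp only [h2]
    rw [← Finset.sum_div]
    field_simp
  · intro x h
    have hqh : 0 ≤ p h := apply_nonneg p h
    have hqx : 0 ≤ p x := apply_nonneg p x
    obtain ⟨n, hn⟩ : ∃ n : ℕ, x ≠ 0 → ∀ᶠ t in 𝓝[>] (0 : ℝ),
        p (x + t • h) + p (x - t • h) - 2 * p x ≤ ω n t := by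
      by_cases h0 : x = 0
      · exact ⟨0, fun h => absurd h0 h⟩
      · obtain ⟨n, hn⟩ := hx x h0 h
        exact ⟨n, fun _ => hn⟩
    obtain ⟨N, hN⟩ := exists_nat_ge (2 * p h ^ 2 + 2 * p x + (n + 1))
    have hn0 : (0 : ℝ) ≤ n := Nat.cast_nonneg n
    have hnN : n < N := by
      have : (n : ℝ) < N := by nlinarith [sq_nonneg (p h)]
      exact_mod_cast this
    have hev : ∀ᶠ t in 𝓝[>] (0 : ℝ), 2 * p x * om (fun y => p y) x (t • h) ≤
        2 * p x * |ω n t| := by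
      by_cases h0 : x = 0
      · refine Eventually.of_forall fun t => ?_
        rw [h0, map_zero]; simp
      · filter_upwards [hn h0] with t ht
        exact mul_le_mul_of_nonneg_left (ht.trans (le_abs_self _)) (by positivity)
    refine ⟨N, ?_⟩
    filter_upwards [hev, self_mem_nhdsWithin] with t h1 ht
    have ht' : (0 : ℝ) < t := ht
    have h2 := om_sq_le p x (t • h)
    have h3 : p (t • h) = t * p h := by rw [map_smul_eq_mul, Real.norm_of_nonneg ht'.le]
    rw [h3] at h2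
    have h4 : |ω n t| ≤ ∑ n ∈ Finset.range N, |ω n t| :=
      Finset.single_le_sum (f := fun n => |ω n t|) (fun i _ => abs_nonneg _)
        (Finset.mem_range.2 hnN)
    have h5 : om (fun y => p y ^ 2) x (t • h) =
      p (x + t • h) ^ 2 + p (x - t • h) ^ 2 - 2 * p x ^ 2 := rfl
    rw [← h5]
    have h6 : 2 * (t * p h) ^ 2 ≤ N * t ^ 2 := by
      calc 2 * (t * p h) ^ 2 = 2 * p h ^ 2 * t ^ 2 := by ring
        _ ≤ N * t ^ 2 := mul_le_mul_of_nonneg_right (by linarith) (by positivity)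
    have h7 : 2 * p x * |ω n t| ≤ N * ∑ n ∈ Finset.range N, |ω n t| := by
      apply mul_le_mul _ h4 (abs_nonneg _) (Nat.cast_nonneg _)
      nlinarith [sq_nonneg (p h)]
    linarith

end Pool.Agent.Y537.PM
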